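import Mathlib
import Pool.Agent.H36.BF.MomB

/-!
Moments: a version without powers of the number of positions.
-/

set_option autoImplicit false

open Finset

namespace Pool.Agent.H36.BT

open Pool.Agent.H36.RW Pool.Agent.H36.BF Pool.Agent.H373R2.T7

open Classical in
lemma rho_all (P S : Finset ℕ) (hP : ∀ p ∈ P, p.Prime) (n : ℕ) :
    ∑ f ∈ Fintype.piFinset (fun _ : Fin n => S), rho P (univ.image f) ≤
      (n : ℝ) ^ n * ∑ G ∈ S.powerset.filter (fun G => G.card ≤ n), rho P G := by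
  have hr : ∀ G, 0 ≤ rho P G := fun G => rho_nonneg P G fun p hp => (hP p hp).pos
  have hmap : ∀ f ∈ Fintype.piFinset (fun _ : Fin n => S),
      univ.image f ∈ S.powerset.filter (fun G => G.card ≤ n) := by
    intro f hf
    rw [Fintype.mem_piFinset] at hf
    rw [mem_filter, mem_powerset]
    constructor
    · intro x hx
      obtain ⟨i, _, rfl⟩ := mem_image.1 hx
      exact hf i
    · refine card_image_le.trans ?_
      rw [card_univ, Fintype.card_fin]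
  rw [← sum_fiberwise_of_maps_to hmap, mul_sum]
  apply sum_le_sum
  intro G hG
  have hGk := (mem_filter.1 hG).2
  have h2 : ∀ f ∈ (Fintype.piFinset (fun _ : Fin n => S)).filter (fun f => univ.image f = G),
      rho P (univ.image f) = rho P G := by
    intro f hf
    rw [(mem_filter.1 hf).2]
  rw [sum_congr rfl h2, sum_const, nsmul_eq_mul]
  apply mul_le_mul_of_nonneg_right _ (hr G)
  have h3 : ((Fintype.piFinset (fun _ : Fin n => S)).filter (fun f => univ.image f = G)).card ≤ n ^ n := by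
    calc _ ≤ (Fintype.piFinset (fun _ : Fin n => G)).card := by
          apply card_le_card
          intro f hf
          rw [Fintype.mem_piFinset]
          intro i
          rw [← (mem_filter.1 hf).2]
          exact mem_image_of_mem f (mem_univ i)
      _ = G.card ^ n := by rw [Fintype.card_piFinset, prod_const, card_univ, Fintype.card_fin]
      _ ≤ n ^ n := Nat.pow_le_pow_left hGk _
  exact_mod_cast h3

/-- the moment bound -/
theorem thmC : ∃ C0 : ℕ, 1 ≤ C0 ∧ ∀ (ι : Type) (b Jd y q r T k X M0 : ℕ) (P1 P2 S : Finset ℕ) (U : Finset ι)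
    (s : ι → Finset ℕ) (c : ι → ℝ) (K z1 : ℝ), 1 ≤ k → C0 * (2 * k) ≤ b → 2 ≤ b → 4 * k + 10 ≤ y →
    (∀ p ∈ P1, p.Prime ∧ y < p ∧ p ≤ 2 ^ 2 ^ Jd ∧ ¬ p ∣ q) → S ⊆ Icc 1 T →
    16 * Wp (P1.filter (fun p => T < p)) * T ≤ Wp (P1.filter (fun p => p ≤ T)) * y →
    1 ≤ S.card * Wp P1 → 0 < z1 → (∀ p ∈ P2, p.Prime ∧ T < p ∧ ¬ p ∣ q ∧ p ∉ P1 ∧ z1 ≤ p) → 0 ≤ K →
    (∀ u ∈ U, s u ⊆ P2) → (∀ u ∈ U, ∀ u' ∈ U, s u = s u' → u = u') → (∀ u ∈ U, (s u).card ≤ M0) →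
    (∀ u ∈ U, |c u| ≤ K) → ∑ u ∈ U, c u * ∏ p ∈ s u, (1 / (p : ℝ)) = 0 →
    ∑ l ∈ Icc 1 X, YY q r P1 S U s c l ^ (2 * k) ≤
      X * (K ^ (2 * k) * ((k : ℝ) ^ (2 * k) * (Real.exp 2 * (S.card * Wp P1) ^ k) * ∏ p ∈ P2, (1 + (2 : ℝ) ^ (2 * k) / p) +
        (S.card : ℝ) ^ (2 * k) * (((2 * k : ℕ) : ℝ) * M0 / z1 * (∏ p ∈ P2, (1 + (2 : ℝ) ^ (2 * k) / p)) ^ 2) +
        ((2 * k : ℕ) : ℝ) ^ (2 * k) * (Real.exp 2 * (S.card * Wp P1) ^ (2 * k)) *
          ((1 / 2) ^ b * ∏ p ∈ P2, (1 + (2 : ℝ) ^ (2 * k) / p)))) +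
      (S.card : ℝ) ^ (2 * k) * (U.card : ℝ) ^ (2 * k) * (K ^ (2 * k) *
        (((Jd : ℝ) + 2) * (((2 : ℝ) ^ 2 ^ Jd) ^ (10 * b)) ^ 2 + 3)) := by
  classical
  obtain ⟨C0, hC0, hcnt⟩ := cnt
  refine ⟨C0, hC0, ?_⟩
  intro ι b Jd y q r T k X M0 P1 P2 S U s c K z1 hk hb hb2 hy hP1 hS hT hμ hz1 hP2 hK hs hinj hM0 hc hmean
  set W : ℝ := ∏ p ∈ P2, (1 + (2 : ℝ) ^ (2 * k) / p) with hW
  have hW0 : 0 ≤ W := by rw [hW]; exact prod_nonneg fun p _ => by positivity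
  set E : ℝ := ((Jd : ℝ) + 2) * (((2 : ℝ) ^ 2 ^ Jd) ^ (10 * b)) ^ 2 + 3 with hE
  have hE0 : 0 ≤ E := by rw [hE]; positivity
  rw [YY_pow]
  have hX0 : (0 : ℝ) ≤ X := Nat.cast_nonneg X
  have hr : ∀ G, 0 ≤ rho P1 G := fun G => rho_nonneg P1 G fun p hp => (hP1 p hp).1.pos
  have hr1 : ∀ G, rho P1 G ≤ 1 := fun G => rho_le_one P1 G fun p hp => (hP1 p hp).1
  -- one term
  have hterm : ∀ f ∈ Fintype.piFinset (fun _ : Fin (2 * k) => S), ∀ V ∈ Fintype.piFinset (fun _ : Fin (2 * k) => U),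
      (∏ i, c (V i)) * (NF q r P1 X (2 * k) f (fun i => s (V i)) : ℝ) ≤
        X * rho P1 (univ.image f) * ((∏ i, c (V i)) * tau f (fun i => s (V i))) +
        (K ^ (2 * k) * ((1 / 2) ^ b * (X * rho P1 (univ.image f))) * tau f (fun i => s (V i)) + K ^ (2 * k) * E) := by
    intro f hf V hV
    rw [Fintype.mem_piFinset] at hf hV
    have h1 := hcnt b Jd y q r T (2 * k) X P1 f (fun i => s (V i)) hb hb2 (by omega) hP1 (fun i => hS (hf i))
      (fun i p hp => by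
        have := hP2 p (hs _ (hV i) hp)
        exact ⟨this.1, this.2.1, this.2.2.1, this.2.2.2.1⟩)
    rw [← hE] at h1
    have h3 : |∏ i, c (V i)| ≤ K ^ (2 * k) := by
      rw [abs_prod]
      calc ∏ i, |c (V i)| ≤ ∏ _i : Fin (2 * k), K := prod_le_prod (fun _ _ => abs_nonneg _) fun i _ => hc _ (hV i)
        _ = K ^ (2 * k) := by rw [prod_const, card_univ, Fintype.card_fin]
    set N : ℝ := (NF q r P1 X (2 * k) f (fun i => s (V i)) : ℝ)
    set ρ := rho P1 (univ.image f)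
    set t := tau f (fun i => s (V i)) with ht
    set Cc := ∏ i, c (V i)
    have ht0 : 0 ≤ t := tau_nonneg _ _
    have h4 : Cc * (N - X * (ρ * t)) ≤ K ^ (2 * k) * ((1 / 2) ^ b * (X * (ρ * t)) + E) := by
      calc Cc * (N - X * (ρ * t)) ≤ |Cc * (N - X * (ρ * t))| := le_abs_self _
        _ = |Cc| * |N - X * (ρ * t)| := abs_mul _ _
        _ ≤ K ^ (2 * k) * ((1 / 2) ^ b * (X * (ρ * t)) + E) :=
            mul_le_mul h3 h1 (abs_nonneg _) (by positivity)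
    have e1 : Cc * N = X * ρ * (Cc * t) + Cc * (N - X * (ρ * t)) := by ring
    have e2 : K ^ (2 * k) * ((1 / 2) ^ b * (X * (ρ * t)) + E) =
        K ^ (2 * k) * ((1 / 2) ^ b * (X * ρ)) * t + K ^ (2 * k) * E := by ring
    rw [e1, ← e2]
    linarith
  -- one tuple of positions
  have hf1 : ∀ f ∈ Fintype.piFinset (fun _ : Fin (2 * k) => S),
      ∑ V ∈ Fintype.piFinset (fun _ : Fin (2 * k) => U),
        (∏ i, c (V i)) * (NF q r P1 X (2 * k) f (fun i => s (V i)) : ℝ) ≤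
      X * ((if Dbl f then rho P1 (univ.image f) * (K ^ (2 * k) * W) else 0) +
        K ^ (2 * k) * (((2 * k : ℕ) : ℝ) * M0 / z1) * W ^ 2 + rho P1 (univ.image f) * (K ^ (2 * k) * ((1 / 2) ^ b * W))) +
        (U.card : ℝ) ^ (2 * k) * (K ^ (2 * k) * E) := by
    intro f hf
    refine (sum_le_sum (hterm f hf)).trans ?_
    rw [sum_add_distrib, sum_add_distrib, ← mul_sum, ← mul_sum, sum_const, nsmul_eq_mul, Fintype.card_piFinset,
      prod_const, card_univ, Fintype.card_fin]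
    push_cast
    set ρ := rho P1 (univ.image f)
    have hρ0 : 0 ≤ ρ := hr _
    have hρ1 : ρ ≤ 1 := hr1 _
    have ht := tau_sum' P2 (fun p hp => (hP2 p hp).1) (2 * k) f U s hs hinj
    rw [← hW] at ht
    have h1 : K ^ (2 * k) * ((1 / 2) ^ b * (X * ρ)) * ∑ V ∈ Fintype.piFinset (fun _ : Fin (2 * k) => U), tau f (fun i => s (V i)) ≤
        X * (ρ * (K ^ (2 * k) * ((1 / 2) ^ b * W))) := by
      calc _ ≤ K ^ (2 * k) * ((1 / 2) ^ b * (X * ρ)) * W := by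
            apply mul_le_mul_of_nonneg_left ht
            have : 0 ≤ X * ρ := mul_nonneg hX0 hρ0
            positivity
        _ = _ := by ring
    have h2 : X * ρ * ∑ V ∈ Fintype.piFinset (fun _ : Fin (2 * k) => U), (∏ i, c (V i)) * tau f (fun i => s (V i)) ≤
        X * ((if Dbl f then ρ * (K ^ (2 * k) * W) else 0) + K ^ (2 * k) * ((2 * (k : ℝ)) * M0 / z1) * W ^ 2) := by
      have hXρ : 0 ≤ X * ρ := mul_nonneg hX0 hρ0
      by_cases hd : Dbl f
      · rw [if_pos hd]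
        have h3 := (le_abs_self _).trans (T_all P2 U s c K hK (fun p hp => (hP2 p hp).1) hs hinj hc (2 * k) f)
        rw [← hW] at h3
        have h4 : 0 ≤ X * (K ^ (2 * k) * ((2 * (k : ℝ)) * M0 / z1) * W ^ 2) := by positivity
        calc _ ≤ X * ρ * (K ^ (2 * k) * W) := mul_le_mul_of_nonneg_left h3 hXρ
          _ ≤ _ := by
            rw [mul_add]
            have : X * ρ * (K ^ (2 * k) * W) = X * (ρ * (K ^ (2 * k) * W)) := by ring
            linarith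
      · rw [if_neg hd, zero_add]
        unfold Dbl at hd
        push Not at hd
        obtain ⟨i0, hi0⟩ := hd
        have h3 := T_single' P2 U s c K z1 hK hz1 (fun p hp => ⟨(hP2 p hp).1, (hP2 p hp).2.2.2.2⟩) hs hinj M0 hM0 hc
          hmean (2 * k) f i0 hi0
        rw [← hW] at h3
        push_cast at h3
        have h4 := (le_abs_self _).trans h3
        have h5 : 0 ≤ K ^ (2 * k) * ((2 * (k : ℝ)) * M0 / z1) * W ^ 2 := by positivity
        calc _ ≤ X * ρ * (K ^ (2 * k) * ((2 * (k : ℝ)) * M0 / z1) * W ^ 2) := mul_le_mul_of_nonneg_left h4 hXρ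
          _ ≤ X * 1 * (K ^ (2 * k) * ((2 * (k : ℝ)) * M0 / z1) * W ^ 2) := by gcongr
          _ = _ := by ring
    have e3 : X * ((if Dbl f then ρ * (K ^ (2 * k) * W) else 0) + K ^ (2 * k) * ((2 * (k : ℝ)) * M0 / z1) * W ^ 2 +
        ρ * (K ^ (2 * k) * ((1 / 2) ^ b * W))) = X * ((if Dbl f then ρ * (K ^ (2 * k) * W) else 0) +
        K ^ (2 * k) * ((2 * (k : ℝ)) * M0 / z1) * W ^ 2) + X * (ρ * (K ^ (2 * k) * ((1 / 2) ^ b * W))) := by ring
    rw [e3]
    linarith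
  refine (sum_le_sum hf1).trans ?_
  rw [sum_add_distrib, ← mul_sum, sum_add_distrib, sum_add_distrib, sum_const, sum_const, nsmul_eq_mul,
    nsmul_eq_mul, Fintype.card_piFinset, prod_const, card_univ, Fintype.card_fin, ← sum_filter, ← sum_mul, ← sum_mul]
  have h5 := rho_dbl P1 S (fun p hp => (hP1 p hp).1) k
  have h6 := rho_small P1 S y T (by omega) hS (fun p hp => ⟨(hP1 p hp).1, (hP1 p hp).2.1⟩) hT k hμ
  have h5' := rho_all P1 S (fun p hp => (hP1 p hp).1) (2 * k)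
  have h6' := rho_small P1 S y T (by omega) hS (fun p hp => ⟨(hP1 p hp).1, (hP1 p hp).2.1⟩) hT (2 * k) hμ
  have h7 : ∑ f ∈ (Fintype.piFinset (fun _ : Fin (2 * k) => S)).filter Dbl, rho P1 (univ.image f) ≤
      (k : ℝ) ^ (2 * k) * (Real.exp 2 * (S.card * Wp P1) ^ k) :=
    h5.trans (mul_le_mul_of_nonneg_left h6 (by positivity))
  have h7' : ∑ f ∈ Fintype.piFinset (fun _ : Fin (2 * k) => S), rho P1 (univ.image f) ≤
      ((2 * k : ℕ) : ℝ) ^ (2 * k) * (Real.exp 2 * (S.card * Wp P1) ^ (2 * k)) :=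
    h5'.trans (mul_le_mul_of_nonneg_left h6' (by positivity))
  have h8 : X * ((∑ f ∈ (Fintype.piFinset (fun _ : Fin (2 * k) => S)).filter Dbl, rho P1 (univ.image f)) * (K ^ (2 * k) * W)) ≤
      X * ((k : ℝ) ^ (2 * k) * (Real.exp 2 * (S.card * Wp P1) ^ k) * (K ^ (2 * k) * W)) := by
    apply mul_le_mul_of_nonneg_left _ hX0
    exact mul_le_mul_of_nonneg_right h7 (by positivity)
  have h8' : X * ((∑ f ∈ Fintype.piFinset (fun _ : Fin (2 * k) => S), rho P1 (univ.image f)) * (K ^ (2 * k) * ((1 / 2) ^ b * W))) ≤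
      X * (((2 * k : ℕ) : ℝ) ^ (2 * k) * (Real.exp 2 * (S.card * Wp P1) ^ (2 * k)) * (K ^ (2 * k) * ((1 / 2) ^ b * W))) := by
    apply mul_le_mul_of_nonneg_left _ hX0
    exact mul_le_mul_of_nonneg_right h7' (by positivity)
  push_cast at h8' ⊢
  rw [mul_add, mul_add]
  calc _ ≤ X * ((k : ℝ) ^ (2 * k) * (Real.exp 2 * (S.card * Wp P1) ^ k) * (K ^ (2 * k) * W)) +
        X * ((S.card : ℝ) ^ (2 * k) * (K ^ (2 * k) * (2 * (k : ℝ) * M0 / z1) * W ^ 2)) +
        X * ((2 * (k : ℝ)) ^ (2 * k) * (Real.exp 2 * (S.card * Wp P1) ^ (2 * k)) * (K ^ (2 * k) * ((1 / 2) ^ b * W))) +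
        (S.card : ℝ) ^ (2 * k) * ((U.card : ℝ) ^ (2 * k) * (K ^ (2 * k) * E)) := by
        gcongr
    _ = _ := by ring

end Pool.Agent.H36.BT
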