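import Mathlib
import Pool.Agent.H36.BT.Mom
import Pool.Agent.H36.BF.Two

/-!
The number of survivors, when only few of the groups of primes are nonempty.
-/

set_option autoImplicit false

open Finset

namespace Pool.Agent.H36.BT

open Pool.Agent.Helper112.LP Pool.Agent.Helper112.LP.Kba Pool.Agent.Helper112.LP.Kbh
open Pool.Agent.H483R2.BHKD Pool.Agent.H20R2.FL Pool.Agent.H36.RW Pool.Agent.H36.BF Pool.Agent.H373R2.T7

lemma card_Ks (J J' : ℕ) (P : Finset ℕ) (h : ∀ i : Fin J, (grp J P i).Nonempty → J ≤ J' + (i : ℕ)) :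
    (univ.filter (fun i : Fin J => (grp J P i).Nonempty)).card ≤ J' := by
  calc (univ.filter (fun i : Fin J => (grp J P i).Nonempty)).card ≤ (range J').card := by
        apply card_le_card_of_injOn (fun i : Fin J => J - 1 - (i : ℕ))
        · intro i hi
          rw [mem_coe, mem_filter] at hi
          rw [mem_coe, mem_range]
          have h1 := h i hi.2
          have h2 := i.2
          show J - 1 - (i : ℕ) < J'
          omega
        · intro i _ j _ hij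
          have h1 := i.2
          have h2 := j.2
          simp only at hij
          apply Fin.ext
          omega
    _ = J' := card_range J'

lemma UU_M1 (b J J' : ℕ) (P : Finset ℕ) (h : ∀ i : Fin J, (grp J P i).Nonempty → J ≤ J' + (i : ℕ))
    {T : Fin J → Finset ℕ} (hT : T ∈ UU b J P) : (bhU T).card ≤ J' * (2 * b + 2 * J' + 1) := by
  unfold bhU
  refine card_biUnion_le.trans ?_
  have h0 : ∑ i : Fin J, (T i).card = ∑ i ∈ univ.filter (fun i : Fin J => (grp J P i).Nonempty), (T i).card := by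
    symm
    apply sum_subset (subset_univ _)
    intro i _ hi
    have h1 : grp J P i = ∅ := by
      by_contra h2
      exact hi (mem_filter.2 ⟨mem_univ _, nonempty_iff_ne_empty.2 h2⟩)
    have h2 := UU_sub b J P hT i
    rw [h1, subset_empty] at h2
    rw [h2, card_empty]
  rw [h0]
  calc ∑ i ∈ univ.filter (fun i : Fin J => (grp J P i).Nonempty), (T i).card ≤
      ∑ _i ∈ univ.filter (fun i : Fin J => (grp J P i).Nonempty), (2 * b + 2 * J' + 1) := by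
        apply sum_le_sum
        intro i hi
        have h1 := UU_card b J P hT i
        have h2 := h i (mem_filter.1 hi).2
        unfold bb at h1
        omega
    _ = (univ.filter (fun i : Fin J => (grp J P i).Nonempty)).card * (2 * b + 2 * J' + 1) := by
        rw [sum_const, smul_eq_mul]
    _ ≤ J' * (2 * b + 2 * J' + 1) := Nat.mul_le_mul_right _ (card_Ks J J' P h)

lemma cK_empty (b J : ℕ) (P : Finset ℕ) (k : Fin J) (h : grp J P k = ∅) :
    (∀ m, GG (FF b J P) (cK b J k) m = 0) ∧ wm (FF b J P) (cK b J k) = 0 := by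
  classical
  have h1 : FF b J P k = {∅} := by
    unfold FF
    rw [h]
    ext U
    rw [mem_filter, mem_powerset, subset_empty, mem_singleton]
    constructor
    · exact fun h => h.1
    · intro h2
      rw [h2]
      exact ⟨rfl, by simp⟩
  have h2 : cK b J k k ∅ = 0 := by
    unfold cK cE
    rw [if_pos rfl, if_neg]
    rw [card_empty]
    omega
  constructor
  · intro m
    unfold GG
    apply prod_eq_zero (mem_univ k)
    rw [h1, sum_singleton, h2]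
    simp
  · unfold wm
    apply prod_eq_zero (mem_univ k)
    rw [h1, sum_singleton, h2, zero_mul]

/-- the bound for the moment -/
noncomputable def MC (k X b1 Jd b J J' : ℕ) (S P1 P2 : Finset ℕ) (z1 : ℝ) : ℝ :=
  X * (3 ^ (2 * k) * ((k : ℝ) ^ (2 * k) * (Real.exp 2 * (S.card * Wp P1) ^ k) * ∏ p ∈ P2, (1 + (2 : ℝ) ^ (2 * k) / p) +
        (S.card : ℝ) ^ (2 * k) * (((2 * k : ℕ) : ℝ) * ((J' * (2 * b + 2 * J' + 1) : ℕ) : ℝ) / z1 *
          (∏ p ∈ P2, (1 + (2 : ℝ) ^ (2 * k) / p)) ^ 2) +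
        ((2 * k : ℕ) : ℝ) ^ (2 * k) * (Real.exp 2 * (S.card * Wp P1) ^ (2 * k)) *
          ((1 / 2) ^ b1 * ∏ p ∈ P2, (1 + (2 : ℝ) ^ (2 * k) / p)))) +
      (S.card : ℝ) ^ (2 * k) * (((2 : ℝ) ^ 2 ^ J) ^ (10 * b)) ^ (2 * k) * (3 ^ (2 * k) *
        (((Jd : ℝ) + 2) * (((2 : ℝ) ^ 2 ^ Jd) ^ (10 * b1)) ^ 2 + 3))

/-- deviation of one sieve function -/
theorem devD : ∃ C0 : ℕ, 1 ≤ C0 ∧ ∀ (b1 Jd y q r T k X b J J' : ℕ) (P1 P2 S : Finset ℕ)
    (C : Fin J → Finset ℕ → ℝ) (z1 ε : ℝ), 1 ≤ k → C0 * (2 * k) ≤ b1 → 2 ≤ b1 → 4 * k + 10 ≤ y →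
    (∀ p ∈ P1, p.Prime ∧ y < p ∧ p ≤ 2 ^ 2 ^ Jd ∧ ¬ p ∣ q) → S ⊆ Icc 1 T →
    16 * Wp (P1.filter (fun p => T < p)) * T ≤ Wp (P1.filter (fun p => p ≤ T)) * y →
    1 ≤ S.card * Wp P1 → 0 < z1 → (∀ p ∈ P2, p.Prime ∧ T < p ∧ ¬ p ∣ q ∧ p ∉ P1 ∧ z1 ≤ p) → 1 ≤ b →
    (∀ i : Fin J, (grp J P2 i).Nonempty → J ≤ J' + (i : ℕ)) →
    (∀ i V, |C i V| ≤ 1) → |wm (FF b J P2) C| ≤ 2 → 0 < ε →
    (((Icc 1 X).filter (fun l => ε < |∑ h ∈ S.filter (fun h => ∀ p ∈ P1, ¬ p ∣ q * l + r + h),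
      GG (FF b J P2) C (q * l + r + h) - wm (FF b J P2) C * XX q r P1 S l|)).card : ℝ) * ε ^ (2 * k) ≤
      MC k X b1 Jd b J J' S P1 P2 z1 := by
  classical
  obtain ⟨C0, hC0, hB⟩ := thmC
  refine ⟨C0, hC0, ?_⟩
  intro b1 Jd y q r T k X b J J' P1 P2 S C z1 ε hk hb hb2 hy hP1 hS hT hμ hz1 hP2 hb0 hJ' hC hw hε
  have key := hB (Fin J → Finset ℕ) b1 Jd y q r T k X (J' * (2 * b + 2 * J' + 1)) P1 P2 S (UU b J P2) bhU (cc b J P2 C) 3 z1
    hk hb hb2 hy hP1 hS hT hμ hz1 hP2 (by norm_num) (fun u hu => UU_bhU b J P2 hu)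
    (fun u hu u' hu' h => UU_inj b J P2 hu hu' h) (fun u hu => UU_M1 b J J' P2 hJ' hu) (fun u _ => cc_abs b J P2 C hC hw u)
    (cc_mean b J P2 C)
  have hYY : ∀ l, YY q r P1 S (UU b J P2) bhU (cc b J P2 C) l =
      ∑ h ∈ S.filter (fun h => ∀ p ∈ P1, ¬ p ∣ q * l + r + h), GG (FF b J P2) C (q * l + r + h) -
        wm (FF b J P2) C * XX q r P1 S l := by
    intro l
    unfold YY XX
    rw [sum_congr rfl fun h _ => Lam_cc b J P2 C (q * l + r + h), sum_sub_distrib, sum_const, nsmul_eq_mul]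
    ring
  have hcard : ((UU b J P2).card : ℝ) ≤ ((2 : ℝ) ^ 2 ^ J) ^ (10 * b) := by
    exact_mod_cast UU_cardU b J P2 hb0 fun p hp => (hP2 p hp).1
  set B := (Icc 1 X).filter (fun l => ε < |∑ h ∈ S.filter (fun h => ∀ p ∈ P1, ¬ p ∣ q * l + r + h),
      GG (FF b J P2) C (q * l + r + h) - wm (FF b J P2) C * XX q r P1 S l|) with hBd
  calc (B.card : ℝ) * ε ^ (2 * k) = ∑ l ∈ B, ε ^ (2 * k) := by rw [sum_const, nsmul_eq_mul]
    _ ≤ ∑ l ∈ B, YY q r P1 S (UU b J P2) bhU (cc b J P2 C) l ^ (2 * k) := by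
        apply sum_le_sum
        intro l hl
        rw [hBd, mem_filter] at hl
        rw [hYY l]
        have h1 : ∀ x : ℝ, x ^ (2 * k) = |x| ^ (2 * k) := fun x => by rw [pow_mul, pow_mul, sq_abs]
        rw [h1 (_ - _)]
        exact pow_le_pow_left₀ hε.le hl.2.le _
    _ ≤ ∑ l ∈ Icc 1 X, YY q r P1 S (UU b J P2) bhU (cc b J P2 C) l ^ (2 * k) := by
        apply sum_le_sum_of_subset_of_nonneg (filter_subset _ _)
        intro l _ _
        rw [pow_mul]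
        positivity
    _ ≤ _ := by
        refine key.trans ?_
        unfold MC
        gcongr

open Classical in
theorem twoT : ∃ C0 C1 : ℕ, 1 ≤ C0 ∧ ∀ (b1 Jd y q r T k X b J J' : ℕ) (P1 P2 S : Finset ℕ) (z1 : ℝ),
    1 ≤ k → C0 * (2 * k) ≤ b1 → 2 ≤ b1 → 4 * k + 10 ≤ y →
    (∀ p ∈ P1, p.Prime ∧ y < p ∧ p ≤ 2 ^ 2 ^ Jd ∧ ¬ p ∣ q) → S ⊆ Icc 1 T →
    16 * Wp (P1.filter (fun p => T < p)) * T ≤ Wp (P1.filter (fun p => p ≤ T)) * y →
    (k : ℝ) ≤ S.card * Wp P1 → 0 < z1 →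
    (∀ p ∈ P2, p.Prime ∧ T < p ∧ ¬ p ∣ q ∧ p ∉ P1 ∧ z1 ≤ p ∧ 12 < p ∧ p ≤ 2 ^ 2 ^ J) → C1 ≤ b → 2 ≤ b →
    (∀ i : Fin J, (grp J P2 i).Nonempty → J ≤ J' + (i : ℕ)) →
    (((Icc 1 X).filter (fun l => ¬ Ok (1 / 8) 4 (XX q r (P1 ∪ P2) S l) (Wp P2 * (S.card * Wp P1)))).card : ℝ) ≤
      X * (2 * (16 * Real.exp 5 * k / (S.card * Wp P1)) ^ k + (1 / 2) ^ b1 * (16 * Real.exp 7) ^ k) +
      (2 * (S.card + S.card * Wp P1) / (S.card * Wp P1)) ^ (2 * k) *
        (((Jd : ℝ) + 2) * (((2 : ℝ) ^ 2 ^ Jd) ^ (10 * b1)) ^ 2) +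
      (J' + 1) * (MC k X b1 Jd b J J' S P1 P2 z1 / (Wp P2 * (S.card * Wp P1) / (8 * (J' + 1))) ^ (2 * k)) := by
  obtain ⟨Ca, hCa, hcore⟩ := core
  obtain ⟨Cb, hCb, hdev⟩ := devD
  obtain ⟨C1, hC1, hmean⟩ := sieve_mean
  refine ⟨max Ca Cb, C1, le_trans hCa (le_max_left _ _), ?_⟩
  intro b1 Jd y q r T k X b J J' P1 P2 S z1 hk hb1 hb12 hy hP1 hS hT hμ hz1 hP2 hb hb2 hJ'
  have hba : Ca * (2 * k) ≤ b1 := (Nat.mul_le_mul_right _ (le_max_left _ _)).trans hb1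
  have hbb : Cb * (2 * k) ≤ b1 := (Nat.mul_le_mul_right _ (le_max_right _ _)).trans hb1
  have hk0 : (1 : ℝ) ≤ k := by exact_mod_cast hk
  set μ : ℝ := S.card * Wp P1 with hμd
  have hμ1 : 1 ≤ μ := hk0.trans hμ
  have hμ0 : 0 < μ := by linarith
  have hW0 : 0 < Wp P2 := Wp_pos P2 (fun p hp => (hP2 p hp).1.two_le)
  set W2 := Wp P2 with hW2
  have hW21 : W2 ≤ 1 := by
    rw [hW2]
    unfold Wp
    apply prod_le_one
    · intro p hp
      exact (fac_bounds (hP2 p hp).1).1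
    · intro p hp
      exact (fac_bounds (hP2 p hp).1).2
  have hPs : ∀ p ∈ P2, p.Prime ∧ 12 < p ∧ p ≤ 2 ^ 2 ^ J := fun p hp =>
    ⟨(hP2 p hp).1, (hP2 p hp).2.2.2.2.2.1, (hP2 p hp).2.2.2.2.2.2⟩
  obtain ⟨hm1, hm2, hm3, hm4⟩ := hmean b J P2 hb hb2 hPs
  set ε : ℝ := W2 * μ / (8 * (J' + 1)) with hε
  have hJ0 : (0 : ℝ) ≤ J' := Nat.cast_nonneg J'
  have hε0 : 0 < ε := by positivity
  have hP2' : ∀ p ∈ P2, p.Prime ∧ T < p ∧ ¬ p ∣ q ∧ p ∉ P1 ∧ z1 ≤ p := fun p hp =>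
    ⟨(hP2 p hp).1, (hP2 p hp).2.1, (hP2 p hp).2.2.1, (hP2 p hp).2.2.2.1, (hP2 p hp).2.2.2.2.1⟩
  have hd := fun C hC hw => hdev b1 Jd y q r T k X b J J' P1 P2 S C z1 ε hk hbb hb12 hy hP1 hS hT hμ1 hz1 hP2'
    (by omega) hJ' hC hw hε0
  -- the exceptional sets
  set Dv : (Fin J → Finset ℕ → ℝ) → Finset ℕ := fun C => (Icc 1 X).filter (fun l => ε <
    |∑ h ∈ S.filter (fun h => ∀ p ∈ P1, ¬ p ∣ q * l + r + h), GG (FF b J P2) C (q * l + r + h) -
      wm (FF b J P2) C * XX q r P1 S l|) with hDv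
  have hDvb : ∀ C : Fin J → Finset ℕ → ℝ, (∀ i V, |C i V| ≤ 1) → |wm (FF b J P2) C| ≤ 2 →
      ((Dv C).card : ℝ) ≤ MC k X b1 Jd b J J' S P1 P2 z1 / ε ^ (2 * k) := by
    intro C hC hw
    rw [le_div_iff₀ (by positivity)]
    have := hd C hC hw
    convert this using 3
  set B0 := (Icc 1 X).filter (fun l => 1 / 2 * μ < |(XX q r P1 S l : ℝ) - μ|) with hB0
  have hB0c : (B0.card : ℝ) ≤ X * (2 * (16 * Real.exp 5 * k / μ) ^ k + (1 / 2) ^ b1 * (16 * Real.exp 7) ^ k) +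
      (2 * (S.card + μ) / μ) ^ (2 * k) * (((Jd : ℝ) + 2) * (((2 : ℝ) ^ 2 ^ Jd) ^ (10 * b1)) ^ 2) := by
    have h1 := hcore q r P1 S y T k b1 Jd X (1 / 2) hk hba hb12 hy hP1 hS hT hμ (by norm_num)
    rw [← hμd] at h1
    have e1 : 4 * Real.exp 5 * k / ((1 / 2) ^ 2 * μ) = 16 * Real.exp 5 * k / μ := by
      field_simp
      ring
    have e2 : 4 * Real.exp 7 / (1 / 2) ^ 2 = 16 * Real.exp 7 := by
      field_simp
      ring
    have e3 : ((S.card : ℝ) + μ) / (1 / 2 * μ) = 2 * (S.card + μ) / μ := by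
      field_simp
    rw [e1, e2, e3] at h1
    convert h1 using 4
  set Ks : Finset (Fin J) := univ.filter (fun i => (grp J P2 i).Nonempty) with hKs
  have hKsc : Ks.card ≤ J' := card_Ks J J' P2 hJ'
  have hKs0 : ∀ k : Fin J, k ∉ Ks → (∀ m, GG (FF b J P2) (cK b J k) m = 0) ∧ wm (FF b J P2) (cK b J k) = 0 := by
    intro k hk
    have : grp J P2 k = ∅ := by
      by_contra h
      exact hk (mem_filter.2 ⟨mem_univ _, nonempty_iff_ne_empty.2 h⟩)
    exact cK_empty b J P2 k this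
  have hsub : (Icc 1 X).filter (fun l => ¬ Ok (1 / 8) 4 (XX q r (P1 ∪ P2) S l) (W2 * μ)) ⊆
      B0 ∪ (Dv (cU b J) ∪ Ks.biUnion (fun k => Dv (cK b J k))) := by
    intro l hl
    rw [mem_filter] at hl
    obtain ⟨hl1, hl2⟩ := hl
    by_contra hno
    apply hl2
    rw [mem_union, mem_union, mem_biUnion] at hno
    push Not at hno
    obtain ⟨h1, h2, h3⟩ := hno
    have h1' : |(XX q r P1 S l : ℝ) - μ| ≤ 1 / 2 * μ := by
      by_contra h
      apply h1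
      rw [hB0, mem_filter]
      exact ⟨hl1, not_le.1 h⟩
    set x1 : ℝ := (XX q r P1 S l : ℝ) with hx1
    set S1 := S.filter (fun h => ∀ p ∈ P1, ¬ p ∣ q * l + r + h) with hS1
    have hdv : ∀ C, l ∉ Dv C → |∑ h ∈ S1, GG (FF b J P2) C (q * l + r + h) - wm (FF b J P2) C * x1| ≤ ε := by
      intro C hC
      by_contra h
      apply hC
      rw [hDv, mem_filter]
      exact ⟨hl1, not_le.1 h⟩
    have h2' := hdv _ h2
    have h3' : ∀ k ∈ Ks, |∑ h ∈ S1, GG (FF b J P2) (cK b J k) (q * l + r + h) - wm (FF b J P2) (cK b J k) * x1| ≤ ε :=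
      fun k hk => hdv _ (h3 k hk)
    have hN : (XX q r (P1 ∪ P2) S l : ℝ) = ∑ h ∈ S1, if ∀ p ∈ P2, ¬ p ∣ q * l + r + h then (1 : ℝ) else 0 := by
      unfold XX
      rw [← sum_filter, sum_const, nsmul_eq_mul, mul_one, hS1, filter_filter]
      congr 2
      apply filter_congr
      intro h _
      constructor
      · intro h4
        exact ⟨fun p hp => h4 p (mem_union_left _ hp), fun p hp => h4 p (mem_union_right _ hp)⟩
      · rintro ⟨h4, h5⟩ p hp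
        rcases mem_union.1 hp with h6 | h6
        · exact h4 p h6
        · exact h5 p h6
    have hptw := fun m => sieve_ptw b J P2 hPs m
    have hup : (XX q r (P1 ∪ P2) S l : ℝ) ≤ ∑ h ∈ S1, GG (FF b J P2) (cU b J) (q * l + r + h) := by
      rw [hN]
      apply sum_le_sum
      intro h _
      have := (hptw (q * l + r + h)).1
      convert this
    have hlo : ∑ h ∈ S1, GG (FF b J P2) (cU b J) (q * l + r + h) -
        ∑ k, ∑ h ∈ S1, GG (FF b J P2) (cK b J k) (q * l + r + h) ≤ (XX q r (P1 ∪ P2) S l : ℝ) := by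
      rw [hN, sum_comm (s := (univ : Finset (Fin J))), ← sum_sub_distrib]
      apply sum_le_sum
      intro h _
      have := (hptw (q * l + r + h)).2
      convert this
    have ha := abs_le.1 h1'
    have hb' := abs_le.1 h2'
    have hx1lo : 1 / 2 * μ ≤ x1 := by linarith
    have hx1hi : x1 ≤ 3 / 2 * μ := by linarith
    have hεle : ε ≤ 1 / 8 * (W2 * μ) := by
      rw [hε, div_le_iff₀ (by positivity)]
      have : 0 ≤ W2 * μ * J' := by positivity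
      nlinarith
    constructor
    · have hsum0 : ∑ k, ∑ h ∈ S1, GG (FF b J P2) (cK b J k) (q * l + r + h) =
          ∑ k ∈ Ks, ∑ h ∈ S1, GG (FF b J P2) (cK b J k) (q * l + r + h) := by
        symm
        apply sum_subset (subset_univ _)
        intro k _ hk
        exact sum_eq_zero fun h _ => (hKs0 k hk).1 _
      have hsum1 : ∑ k, wm (FF b J P2) (cK b J k) = ∑ k ∈ Ks, wm (FF b J P2) (cK b J k) := by
        symm
        apply sum_subset (subset_univ _)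
        intro k _ hk
        exact (hKs0 k hk).2
      have hsum : ∑ k ∈ Ks, ∑ h ∈ S1, GG (FF b J P2) (cK b J k) (q * l + r + h) ≤
          ∑ k ∈ Ks, (wm (FF b J P2) (cK b J k) * x1 + ε) := by
        apply sum_le_sum
        intro k hk
        have := (abs_le.1 (h3' k hk)).2
        linarith
      rw [sum_add_distrib, ← sum_mul, sum_const, nsmul_eq_mul, ← hsum0, ← hsum1] at hsum
      have hKe : (Ks.card : ℝ) * ε ≤ J' * ε := mul_le_mul_of_nonneg_right (by exact_mod_cast hKsc) hε0.le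
      have hJε : (J' : ℝ) * ε + ε = 1 / 8 * (W2 * μ) := by
        rw [hε]
        field_simp
      have h5 : (wm (FF b J P2) (cU b J) - ∑ k, wm (FF b J P2) (cK b J k)) * x1 ≥ 1 / 2 * W2 * (1 / 2 * μ) :=
        mul_le_mul hm4 hx1lo (by positivity) (le_trans (by positivity) hm4)
      rw [sub_mul] at h5
      linarith
    · have h5 : wm (FF b J P2) (cU b J) * x1 ≤ 2 * W2 * (3 / 2 * μ) :=
        mul_le_mul hm2 hx1hi (Nat.cast_nonneg _) (by positivity)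
      have h6 : 0 < W2 * μ := by positivity
      linarith
  have hcard := (card_le_card hsub).trans (card_union_le _ _)
  have hcard2 := card_union_le (Dv (cU b J)) (Ks.biUnion (fun k => Dv (cK b J k)))
  have hcard3 : (Ks.biUnion (fun k => Dv (cK b J k))).card ≤ ∑ k ∈ Ks, (Dv (cK b J k)).card := card_biUnion_le
  have hcr : (((Icc 1 X).filter (fun l => ¬ Ok (1 / 8) 4 (XX q r (P1 ∪ P2) S l) (W2 * μ))).card : ℝ) ≤
      B0.card + ((Dv (cU b J)).card + ∑ k ∈ Ks, ((Dv (cK b J k)).card : ℝ)) := by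
    have : ((Icc 1 X).filter (fun l => ¬ Ok (1 / 8) 4 (XX q r (P1 ∪ P2) S l) (W2 * μ))).card ≤
      B0.card + ((Dv (cU b J)).card + ∑ k ∈ Ks, (Dv (cK b J k)).card) := by omega
    exact_mod_cast this
  refine hcr.trans ?_
  have h7 := hDvb (cU b J) (cU_abs b J) (by
    rw [abs_of_nonneg hm1]
    linarith)
  have h8 : ∀ k, ((Dv (cK b J k)).card : ℝ) ≤ MC _ X b1 Jd b J J' S P1 P2 z1 / ε ^ (2 * _) := fun k =>
    hDvb (cK b J k) (cK_abs b J k) (by
      rw [abs_of_nonneg (hm3 k).1]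
      linarith [(hm3 k).2])
  have h9 : ∑ k ∈ Ks, ((Dv (cK b J k)).card : ℝ) ≤ J' * (MC k X b1 Jd b J J' S P1 P2 z1 / ε ^ (2 * k)) := by
    have hM0 : 0 ≤ MC k X b1 Jd b J J' S P1 P2 z1 / ε ^ (2 * k) := (Nat.cast_nonneg _).trans h7
    calc ∑ k ∈ Ks, ((Dv (cK b J k)).card : ℝ) ≤ ∑ _k ∈ Ks, (MC k X b1 Jd b J J' S P1 P2 z1 / ε ^ (2 * k)) :=
          sum_le_sum fun k _ => h8 k
      _ = Ks.card * (MC k X b1 Jd b J J' S P1 P2 z1 / ε ^ (2 * k)) := by rw [sum_const, nsmul_eq_mul]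
      _ ≤ _ := mul_le_mul_of_nonneg_right (by exact_mod_cast hKsc) hM0
  have e5 : ((J' : ℝ) + 1) * (MC k X b1 Jd b J J' S P1 P2 z1 / ε ^ (2 * k)) =
      J' * (MC k X b1 Jd b J J' S P1 P2 z1 / ε ^ (2 * k)) + MC k X b1 Jd b J J' S P1 P2 z1 / ε ^ (2 * k) := by ring
  rw [e5]
  linarith

end Pool.Agent.H36.BT
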