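import Mathlib
import Pool.Agent.H36.BT.Fin
import Pool.Agent.H36.BF.EvC

/-!
Choice of the parameters.
-/

set_option autoImplicit false

open Finset Filter

namespace Pool.Agent.H36.BT

open Pool.Agent.Helper112.LP Pool.Agent.Helper112.LP.Kba Pool.Agent.Helper112.LP.Kbh
open Pool.Agent.H36.RW Pool.Agent.H36.BF Pool.Agent.H373R2.T7

open Classical in
/-- all classes modulo the small primes -/
theorem discT (C0 C1 : ℕ) (htwo : ∀ (b1 Jd y q r T k X b J J' : ℕ) (P1 P2 S : Finset ℕ) (z1 : ℝ),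
    1 ≤ k → C0 * (2 * k) ≤ b1 → 2 ≤ b1 → 4 * k + 10 ≤ y →
    (∀ p ∈ P1, p.Prime ∧ y < p ∧ p ≤ 2 ^ 2 ^ Jd ∧ ¬ p ∣ q) → S ⊆ Icc 1 T →
    16 * Wp (P1.filter (fun p => T < p)) * T ≤ Wp (P1.filter (fun p => p ≤ T)) * y →
    (k : ℝ) ≤ S.card * Wp P1 → 0 < z1 →
    (∀ p ∈ P2, p.Prime ∧ T < p ∧ ¬ p ∣ q ∧ p ∉ P1 ∧ z1 ≤ p ∧ 12 < p ∧ p ≤ 2 ^ 2 ^ J) → C1 ≤ b → 2 ≤ b →
    (∀ i : Fin J, (grp J P2 i).Nonempty → J ≤ J' + (i : ℕ)) →
    (((Icc 1 X).filter (fun l => ¬ Ok (1 / 8) 4 (XX q r (P1 ∪ P2) S l) (Wp P2 * (S.card * Wp P1)))).card : ℝ) ≤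
      BC k X b1 Jd b J J' S P1 P2 z1)
    (q r T y z z1 k b1 b X J' : ℕ) (M : ℝ) (hJ' : ∀ i : Fin (JJ z), (grp (JJ z) (Pyz z1 z) i).Nonempty → JJ z ≤ J' + (i : ℕ)) (hk : 1 ≤ k) (hb1 : C0 * (2 * k) ≤ b1) (hb12 : 2 ≤ b1)
    (hb : C1 ≤ b) (hb2 : 2 ≤ b) (hy : 4 * k + 10 ≤ y) (hyT : y ≤ T) (hTz : T ≤ z1) (hz1z : z1 ≤ z)
    (hq : ∀ p, p.Prime → y < p → p ≤ z → ¬ p ∣ q)
    (hS : ∀ m, |(Rg y m T : ℝ) - T * Vz y| ≤ 1 / 2 * (T * Vz y))
    (hT : 16 * T * Vz z1 * Vz y ≤ (Vz T) ^ 2 * y)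
    (hμ : (k : ℝ) ≤ 1 / 2 * (T * Vz z1))
    (hBD : ∀ m, BC k (X / Qy y) b1 (JJ z1) b (JJ z) J' (Sy y m T) (Pyz y z1) (Pyz z1 z) z1 ≤ M) :
    (((Icc 1 X).filter (fun l => ¬ Ok (1 / 16) 8 (Rg z (q * l + r) T) (T * Vz z))).card : ℝ) ≤
      Qy y * (1 + M) := by
  have hyz1 : y ≤ z1 := hyT.trans hTz
  have hyz : y ≤ z := hyz1.trans hz1z
  refine le_trans (le_of_eq ?_) (class_split (Qy y) (Qy_pos y) X
    (fun l => ¬ Ok (1 / 16) 8 (Rg z (q * l + r) T) (T * Vz z)) M ?_)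
  · congr!
  intro c
  set P1 := Pyz y z1 with hP1
  set P2 := Pyz z1 z with hP2
  set S := Sy y (q * c + r) T with hSd
  have hPu : P1 ∪ P2 = Pyz y z := by
    ext p
    rw [mem_union, hP1, hP2, mem_Pyz, mem_Pyz, mem_Pyz]
    constructor
    · rintro (⟨h1, h2, h3⟩ | ⟨h1, h2, h3⟩)
      · exact ⟨h1, h2.trans hz1z, h3⟩
      · exact ⟨by omega, h2, h3⟩
    · rintro ⟨h1, h2, h3⟩
      rcases Nat.lt_or_ge z1 p with h4 | h4
      · exact Or.inr ⟨h4, h2, h3⟩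
      · exact Or.inl ⟨h1, h4, h3⟩
  have hScard : (S.card : ℝ) = (Rg y (q * c + r) T : ℝ) := rfl
  have hS1 := hS (q * c + r)
  rw [← hScard] at hS1
  have hVy := Vz_pos y
  have hVz := Vz_pos z
  have hVz1 := Vz_pos z1
  have hW1 : Wp P1 = Vz z1 / Vz y := Wp_Pyz' y z1 hyz1
  have hW2 : Wp P2 = Vz z / Vz z1 := Wp_Pyz' z1 z hz1z
  have hT0 : (0 : ℝ) ≤ T := Nat.cast_nonneg T
  have ha := abs_le.1 hS1
  have hμ1 : (k : ℝ) ≤ S.card * Wp P1 := by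
    refine hμ.trans ?_
    rw [hW1, mul_div_assoc', le_div_iff₀ hVy]
    have h1 : 1 / 2 * (T * Vz y) ≤ S.card := by linarith
    calc 1 / 2 * (T * Vz z1) * Vz y = (1 / 2 * (T * Vz y)) * Vz z1 := by ring
      _ ≤ S.card * Vz z1 := mul_le_mul_of_nonneg_right h1 hVz1.le
  have hqQ : ∀ p, p.Prime → y < p → p ≤ z → ¬ p ∣ q * Qy y := by
    intro p h3 h1 h2 hd
    rcases (Nat.Prime.dvd_mul h3).1 hd with h4 | h4
    · exact hq p h3 h1 h2 h4
    · unfold Qy at h4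
      rw [Prime.dvd_finsetProd_iff h3.prime] at h4
      obtain ⟨p', hp', h5⟩ := h4
      have h6 := (Nat.prime_dvd_prime_iff_eq h3 (mem_pz.1 hp').2).1 h5
      have h7 := (mem_pz.1 hp').1
      omega
  have e1 : P1.filter (fun p => T < p) = Pyz T z1 := by
    ext p
    rw [mem_filter, mem_Pyz, mem_Pyz]
    constructor
    · rintro ⟨⟨_, h1, h2⟩, h3⟩
      exact ⟨h3, h1, h2⟩
    · rintro ⟨h1, h2, h3⟩
      exact ⟨⟨by omega, h2, h3⟩, h1⟩
  have e2 : P1.filter (fun p => p ≤ T) = Pyz y T := by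
    ext p
    rw [mem_filter, mem_Pyz, mem_Pyz]
    constructor
    · rintro ⟨⟨h0, _, h2⟩, h3⟩
      exact ⟨h0, h3, h2⟩
    · rintro ⟨h1, h2, h3⟩
      exact ⟨⟨h1, by omega, h3⟩, h2⟩
  have hT' : 16 * Wp (P1.filter (fun p => T < p)) * T ≤ Wp (P1.filter (fun p => p ≤ T)) * y := by
    rw [e1, e2, Wp_Pyz' T z1 hTz, Wp_Pyz' y T hyT]
    have hVT := Vz_pos T
    rw [div_mul_eq_mul_div, mul_div_assoc', div_mul_eq_mul_div, div_le_div_iff₀ hVT hVy]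
    calc 16 * Vz z1 * T * Vz y = 16 * T * Vz z1 * Vz y := by ring
      _ ≤ Vz T ^ 2 * y := hT
      _ = Vz T * y * Vz T := by ring
  have key := htwo b1 (JJ z1) y (q * Qy y) (q * c + r) T k (X / Qy y) b (JJ z) J' P1 P2 S z1 hk hb1 hb12 hy
    (fun p hp => by
      obtain ⟨h1, h2, h3⟩ := mem_Pyz.1 hp
      exact ⟨h3, h1, h2.trans (JJ_lt z1).le, hqQ p h3 h1 (h2.trans hz1z)⟩) (filter_subset _ _) hT' hμ1
    (by exact_mod_cast (by omega : 0 < z1))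
    (fun p hp => by
      obtain ⟨h1, h2, h3⟩ := mem_Pyz.1 hp
      refine ⟨h3, by omega, hqQ p h3 (by omega) h2, ?_, by exact_mod_cast h1.le, by omega, h2.trans (JJ_lt z).le⟩
      intro h4
      have := (mem_Pyz.1 h4).2.1
      omega) hb hb2 hJ'
  have hcomp : ∀ l, Ok (1 / 8) 4 (XX (q * Qy y) (q * c + r) (P1 ∪ P2) S l) (Wp P2 * (S.card * Wp P1)) →
      Ok (1 / 16) 8 (Rg z (q * (Qy y * l + c) + r) T) (T * Vz z) := by
    intro l hl
    rw [Rg_eq_XX q r y z T c l hyz, ← hPu]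
    have e3 : Wp P2 * (S.card * Wp P1) = S.card * (Vz z / Vz y) := by
      rw [hW1, hW2]
      field_simp
    rw [e3] at hl
    obtain ⟨h1, h2⟩ := hl
    have h3 : S.card * (Vz z / Vz y) ≤ 3 / 2 * (T * Vz z) := by
      rw [mul_div_assoc', div_le_iff₀ hVy]
      have : (S.card : ℝ) ≤ 3 / 2 * (T * Vz y) := by linarith
      calc (S.card : ℝ) * Vz z ≤ 3 / 2 * (T * Vz y) * Vz z := mul_le_mul_of_nonneg_right this hVz.le
        _ = _ := by ring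
    have h4 : 1 / 2 * (T * Vz z) ≤ S.card * (Vz z / Vz y) := by
      rw [mul_div_assoc', le_div_iff₀ hVy]
      have : 1 / 2 * (T * Vz y) ≤ (S.card : ℝ) := by linarith
      calc 1 / 2 * (T * Vz z) * Vz y = 1 / 2 * (T * Vz y) * Vz z := by ring
        _ ≤ (S.card : ℝ) * Vz z := mul_le_mul_of_nonneg_right this hVz.le
    have h5 : 0 ≤ T * Vz z := by positivity
    constructor <;> linarith
  refine le_trans ?_ (key.trans (hBD (q * c + r)))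
  have hsub : (Icc 1 (X / Qy y)).filter (fun l => ¬ Ok (1 / 16) 8 (Rg z (q * (Qy y * l + c) + r) T) (T * Vz z)) ⊆
      (Icc 1 (X / Qy y)).filter (fun l => ¬ Ok (1 / 8) 4 (XX (q * Qy y) (q * c + r) (P1 ∪ P2) S l)
        (Wp P2 * (S.card * Wp P1))) := by
    intro l hl
    rw [mem_filter] at hl ⊢
    exact ⟨hl.1, fun h => hl.2 (hcomp l h)⟩
  exact_mod_cast card_le_card hsub

lemma groups (z1 z J' : ℕ) (hz : 2 ≤ z) (h : 4 * Nat.log 2 z ≤ 2 ^ J' * Nat.log 2 z1) (h1 : 1 ≤ z1) :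
    ∀ i : Fin (JJ z), (grp (JJ z) (Pyz z1 z) i).Nonempty → JJ z ≤ J' + (i : ℕ) := by
  rintro i ⟨p, hp⟩
  unfold grp at hp
  rw [mem_filter, mem_Pyz] at hp
  obtain ⟨⟨h2, _, _⟩, h3⟩ := hp
  have h4 := (bh_Gj_mem h3).2.2
  have h5 : z1 < 2 ^ 2 ^ ((i : ℕ) + 1) := h2.trans h4
  have h6 : Nat.log 2 z1 < 2 ^ ((i : ℕ) + 1) := Nat.log_lt_of_lt_pow (by omega) h5
  have h7 := JJ_pow z hz
  have h8 : 2 ^ (JJ z + 1) < 2 ^ (J' + (i : ℕ) + 1) := by
    calc 2 ^ (JJ z + 1) = 2 * 2 ^ JJ z := by ring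
      _ ≤ 4 * Nat.log 2 z := by omega
      _ ≤ 2 ^ J' * Nat.log 2 z1 := h
      _ < 2 ^ J' * 2 ^ ((i : ℕ) + 1) := Nat.mul_lt_mul_of_pos_left h6 (by positivity)
      _ = 2 ^ (J' + (i : ℕ) + 1) := by rw [← pow_add]; congr 1
  have h9 := (Nat.pow_lt_pow_iff_right (by norm_num : 1 < 2)).1 h8
  omega

lemma bt_final (X y A : ℕ) (L lam : ℝ) (hL1 : 16 ≤ L) (hlam : 4 ≤ lam) (hlamL : lam ≤ L) (hX : Real.exp L ≤ X)
    (hy1 : 1 ≤ y)
    (hyL : (y : ℝ) ≤ L ^ (1 / 6 : ℝ)) (f16 : 4 * L ^ A ≤ Real.exp (1 / 4 * L)) (f20 : 4 ≤ L ^ (2 / 3 : ℝ)) :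
    (Qy y : ℝ) * (1 + (X / Qy y * (6 / lam ^ (A + 2)) + Real.exp (L / 2))) ≤ X / lam ^ A := by
  have hL0 : 0 < L := by linarith
  have hlam0 : 0 < lam := by linarith
  have hyr : (1 : ℝ) ≤ y := by exact_mod_cast hy1
  have hX1 : (0 : ℝ) < X := (Real.exp_pos L).trans_le hX
  have hQpos : (0 : ℝ) < Qy y := by exact_mod_cast Qy_pos y
  have hQle : (Qy y : ℝ) ≤ Real.exp (L / 4) := by
    have h1 : (Qy y : ℝ) ≤ (y : ℝ) ^ y := by exact_mod_cast Qy_le y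
    refine h1.trans ?_
    have h2 : (y : ℝ) ≤ Real.exp y := by linarith [Real.add_one_le_exp (y : ℝ)]
    calc (y : ℝ) ^ y ≤ (Real.exp y) ^ y := pow_le_pow_left₀ (by linarith) h2 _
      _ = Real.exp (y * y) := by rw [← Real.exp_nat_mul]
      _ ≤ Real.exp (L / 4) := by
          apply Real.exp_le_exp.2
          have h3 : (y : ℝ) * y ≤ L ^ (1 / 6 : ℝ) * L ^ (1 / 6 : ℝ) := mul_le_mul hyL hyL (by linarith) (by positivity)
          have h4 : L ^ (1 / 6 : ℝ) * L ^ (1 / 6 : ℝ) = L ^ (1 / 3 : ℝ) := by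
            rw [← Real.rpow_add hL0]
            norm_num
          have h5 : 4 * L ^ (1 / 3 : ℝ) ≤ L := by
            calc 4 * L ^ (1 / 3 : ℝ) ≤ L ^ (2 / 3 : ℝ) * L ^ (1 / 3 : ℝ) := mul_le_mul_of_nonneg_right f20 (by positivity)
              _ = L := by
                  rw [← Real.rpow_add hL0]
                  norm_num
          linarith
  have hexp : Real.exp L = Real.exp (L / 4) * Real.exp (L / 2) * Real.exp (1 / 4 * L) := by
    rw [← Real.exp_add, ← Real.exp_add]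
    congr 1
    ring
  have he1 : 1 ≤ Real.exp (L / 2) := Real.one_le_exp (by positivity)
  have hlamA : lam ^ A ≤ L ^ A := pow_le_pow_left₀ hlam0.le hlamL A
  calc (Qy y : ℝ) * (1 + (X / Qy y * (6 / lam ^ (A + 2)) + Real.exp (L / 2)))
      = Qy y * (1 + Real.exp (L / 2)) + X * (6 / lam ^ (A + 2)) := by field_simp; ring
    _ ≤ Real.exp (L / 4) * (Real.exp (L / 2) + Real.exp (L / 2)) + X * (6 / lam ^ (A + 2)) := by
        gcongr
    _ ≤ X / lam ^ A := by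
        have h1 : Real.exp (L / 4) * (Real.exp (L / 2) + Real.exp (L / 2)) ≤ X / lam ^ A / 2 := by
          rw [div_div, le_div_iff₀ (by positivity)]
          calc Real.exp (L / 4) * (Real.exp (L / 2) + Real.exp (L / 2)) * (lam ^ A * 2) ≤
                Real.exp (L / 4) * (Real.exp (L / 2) + Real.exp (L / 2)) * (L ^ A * 2) := by gcongr
            _ = Real.exp (L / 4) * Real.exp (L / 2) * (4 * L ^ A) := by ring
            _ ≤ Real.exp (L / 4) * Real.exp (L / 2) * Real.exp (1 / 4 * L) :=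
                mul_le_mul_of_nonneg_left f16 (by positivity)
            _ = Real.exp L := hexp.symm
            _ ≤ X := hX
        have h2 : X * (6 / lam ^ (A + 2)) ≤ X / lam ^ A * (1 / 2) := by
          rw [pow_add]
          have h3 : X * (6 / (lam ^ A * lam ^ 2)) = X / lam ^ A * (6 / lam ^ 2) := by field_simp
          rw [h3]
          apply mul_le_mul_of_nonneg_left _ (by positivity)
          rw [div_le_iff₀ (by positivity)]
          nlinarith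
        linarith

end Pool.Agent.H36.BT
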