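import Mathlib
import Pool.Agent.H36.BT.Ev

/-!
Rough numbers in windows of length `lam L`: the exceptional set decays faster than any power of `lam`.
-/

set_option autoImplicit false

open Finset Filter

namespace Pool.Agent.H36.BT

open Pool.Agent.H36.RW Pool.Agent.H36.BF Pool.Agent.H373R2.T7

set_option maxHeartbeats 4000000 in
open Classical in
theorem bt_ev : ∃ δ0 : ℝ, 0 < δ0 ∧ ∀ A : ℕ, ∃ c2 lam0 : ℝ, 0 < c2 ∧ c2 ≤ 1 / 2 ∧ 1 ≤ lam0 ∧
    ∀ᶠ L : ℝ in atTop,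
    ∀ X : ℕ, Real.exp L ≤ X → ∀ lam : ℝ, lam0 ≤ lam → lam ≤ L ^ δ0 → ∀ T : ℕ, lam * L ≤ T → (T : ℝ) ≤ 2 * (lam * L) →
    ∀ q r : ℕ, (∀ p : ℕ, p.Prime → Real.log L < p → p ≤ zE c2 L → ¬ p ∣ q) →
    (((Icc 1 X).filter (fun l => ¬ Ok (1 / 16) 8 (Rg (zE c2 L) (q * l + r) T) (T * Vz (zE c2 L)))).card : ℝ) ≤
      X / lam ^ A := by
  obtain ⟨C0, C1, hC0, htwo⟩ := twoT
  obtain ⟨cl, hcl, hVl⟩ := Vz_lower
  obtain ⟨Cu, hCu, hVu⟩ := Vz_upper
  obtain ⟨K1, x0, hK1, hsm⟩ := small_count (1 / 4) (by norm_num)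
  set η : ℝ := 1 / (6 * K1) with hη
  have hK1r : (1 : ℝ) ≤ K1 := by exact_mod_cast hK1
  have hη0 : 0 < η := by rw [hη]; positivity
  have hη6 : η ≤ 1 / 6 := by
    rw [hη]
    apply one_div_le_one_div_of_le (by norm_num)
    linarith
  have hηK : η * K1 = 1 / 6 := by rw [hη]; field_simp
  refine ⟨η / 2, by positivity, fun A => ?_⟩
  set δ : ℝ := η / 2 with hδd
  have hδ : 0 < δ := by positivity
  have hδη : δ ≤ η / 2 := le_rfl
  -- the parameters
  set k : ℕ := A + 3 with hk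
  have hk1 : 1 ≤ k := by omega
  have hkr : (1 : ℝ) ≤ k := by exact_mod_cast hk1
  set b : ℕ := max C1 2 with hb
  have hbC : C1 ≤ b := le_max_left _ _
  have hb2 : 2 ≤ b := le_max_right _ _
  have hbr : (2 : ℝ) ≤ b := by exact_mod_cast hb2
  set a : ℕ := 4 * k + A + 3 with ha
  obtain ⟨Bq, hBq⟩ := exists_pow_lt_of_lt_one (Real.exp_pos (-((A + 3 : ℕ) : ℝ))) (show (1 / 2 : ℝ) < 1 by norm_num)
  set B : ℕ := max (C0 * (2 * k)) (max Bq 2) with hB
  have hBC : C0 * (2 * k) ≤ B := le_max_left _ _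
  have hB2 : 2 ≤ B := (le_max_right _ _).trans (le_max_right _ _)
  have hBr : (2 : ℝ) ≤ B := by exact_mod_cast hB2
  have hBB : (1 / 2 : ℝ) ^ B ≤ Real.exp (-((A + 3 : ℕ) : ℝ)) := by
    have h1 : (1 / 2 : ℝ) ^ B ≤ (1 / 2) ^ Bq :=
      pow_le_pow_of_le_one (by norm_num) (by norm_num) ((le_max_left _ _).trans (le_max_right _ _))
    exact h1.trans hBq.le
  set c1 : ℝ := 1 / (2000 * B) with hc1
  have hc10 : 0 < c1 := by rw [hc1]; positivity
  have hc11 : c1 ≤ 1 := by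
    rw [hc1, div_le_one (by positivity)]
    linarith
  set c2 : ℝ := 1 / (640 * b * k) with hc2
  have hc20 : 0 < c2 := by rw [hc2]; positivity
  have h640 : (2 : ℝ) * 1 ≤ b * k := mul_le_mul hbr hkr (by norm_num) (by positivity)
  have hc22 : c2 ≤ 1 / 2 := by
    rw [hc2]
    apply one_div_le_one_div_of_le (by norm_num)
    linarith
  have hc21 : c2 ≤ 1 := by linarith
  set R0 : ℝ := 2 * Cu * c2 / (cl * c1) with hR0
  have hR00 : 0 < R0 := by rw [hR0]; positivity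
  set τ : ℝ := 1 / (8 * k + 8) with hτ
  have hτ0 : 0 < τ := by rw [hτ]; positivity
  set N : ℕ := 2 ^ (2 * k) with hN
  set KJ : ℝ := 16 * (c2 / c1) + 1 with hKJ
  have hKJ0 : 0 < KJ := by rw [hKJ]; positivity
  have hM : ∀ (η : ℝ), 0 < η → ∀ M : ℝ, ∀ᶠ L : ℝ in atTop, M ≤ L ^ η := fun η hη0 M => by
    filter_upwards [ev_log_add 0 M η hη0] with L h1
    linarith
  have hlogM : ∀ M : ℝ, ∀ᶠ L : ℝ in atTop, M ≤ Real.log L := fun M =>
    Real.tendsto_log_atTop.eventually_ge_atTop M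
  -- conditions on lam
  obtain ⟨lam0, hlam0⟩ := eventually_atTop.1 ((eventually_ge_atTop (Real.exp 1)).and
    ((hlogM (c1 / c2 + 2 * c1 / cl)).and ((hM τ hτ0 (16 * Real.exp 5 * k + 16 * Real.exp 7)).and
    ((ev_log_pow (16 * KJ) τ hτ0 1).and ((ev_log_pow (2 * k * (KJ * (2 * b + 2 * KJ + 1))) τ hτ0 2).and
    ((ev_log_pow (R0 ^ N) τ hτ0 N).and ((ev_log_pow R0 τ hτ0 1).and ((eventually_ge_atTop (4 : ℝ)).and
    (eventually_ge_atTop ((k : ℝ) + 4))))))))))
  refine ⟨c2, max lam0 1, hc20, hc22, le_max_right _ _, ?_⟩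
  filter_upwards [eventually_ge_atTop (Real.exp 1), hM η hη0 (4 * k + 12), hM η hη0 (x0 + 2),
    ev_log_pow (512 * Cu / (c1 * cl ^ 2)) (η / 2) (by positivity) 3, ev_exp_div 6 c1 hc10 2,
    ev_exp_div 3 (c1 / 2) (by positivity) 1, 
    ev_exp_div 2 c1 hc10 a, ev_pow_exp (4 ^ (2 * k + 1)) (1 / 16) (by norm_num) (4 * k + 1),
    hM (1 / 3) (by norm_num) 4, ev_pow_exp 4 (1 / 4) (by norm_num) A, hM (11 / 12) (by norm_num) 2,
    ev_log_add 1 1 η hη0, eventually_ge_atTop (16 : ℝ), hM (2 / 3) (by norm_num) 4,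
    ev_pow_exp 6 (1 / 50) (by norm_num) 1] with
    L hLe f1 f2 f3 f4 f5 f13 f14 f15 f16 f17 f18 f19 f20 f21
  intro X hX lam hlamlow hlamup T hT1 hT2 q r hq
  obtain ⟨m1, m2, m3, m4, m5, m6, m7, m8, m9⟩ := hlam0 lam ((le_max_left _ _).trans hlamlow)
  clear hlam0
  have hL0 : 0 < L := by linarith
  have hL1 : 1 ≤ L := by linarith
  have hlampos : 0 < lam := by linarith
  have hlam1 : 1 ≤ lam := by linarith
  set ℓ := Real.log L with hℓ
  set ρ := Real.log lam with hρ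
  have hρ1 : 1 ≤ ρ := by
    rw [hρ, Real.le_log_iff_exp_le hlampos]
    exact m1
  have hρ0 : 0 < ρ := by linarith
  have hδ12 : δ ≤ 1 / 12 := by linarith
  have hlamL : lam ≤ L := by
    refine hlamup.trans ?_
    calc L ^ δ ≤ L ^ (1 : ℝ) := Real.rpow_le_rpow_of_exponent_le hL1 (by linarith)
      _ = L := Real.rpow_one L
  have hρℓ : ρ ≤ ℓ := Real.log_le_log hlampos hlamL
  have hℓ1 : 1 ≤ ℓ := by linarith
  have hℓ0 : 0 < ℓ := by linarith
  set z := zE c2 L with hz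
  set z1 := ⌊Real.exp (c1 * L / ρ)⌋₊ with hz1
  set y : ℕ := ⌊L ^ η⌋₊ with hy
  set b1 := B * ⌈ρ⌉₊ with hb1
  set Λ : ℝ := lam ^ τ with hΛ
  set J' : ℕ := ⌈16 * (c2 / c1) * ρ⌉₊ with hJ'
  have hzle : (z : ℝ) ≤ Real.exp (c2 * L) := zE_le c2 L
  have hz1le : (z1 : ℝ) ≤ Real.exp (c1 * L / ρ) := Nat.floor_le (Real.exp_pos _).le
  have hz1lt : Real.exp (c1 * L / ρ) < z1 + 1 := Nat.lt_floor_add_one _
  have hyle : (y : ℝ) ≤ L ^ η := Nat.floor_le (by positivity)
  have hylt : L ^ η < y + 1 := Nat.lt_floor_add_one _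
  have hJ'1 : 16 * (c2 / c1) * ρ ≤ J' := Nat.le_ceil _
  have hJ'2 : (J' : ℝ) < 16 * (c2 / c1) * ρ + 1 := Nat.ceil_lt_add_one (by positivity)
  have hJ'3 : (J' : ℝ) ≤ KJ * ρ := by
    rw [hKJ]
    linarith
  have hc12 : c1 / c2 ≤ ρ := by
    have : 0 < 2 * c1 / cl := by positivity
    linarith
  have g3' : z1 ≤ z := by
    apply Nat.floor_le_floor
    apply Real.exp_le_exp.2
    rw [div_le_iff₀ hc20] at hc12
    rw [div_le_iff₀ hρ0]
    calc c1 * L ≤ (ρ * c2) * L := mul_le_mul_of_nonneg_right hc12 hL0.le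
      _ = c2 * L * ρ := by ring
  have hz1log : 3 ≤ Real.exp (c1 * L / ρ / 2) → c1 * L / ρ / 2 ≤ Real.log z1 := fun h => log_floor_ge _ h
  have hceil1 : ρ ≤ (⌈ρ⌉₊ : ℝ) := Nat.le_ceil _
  have hceil2 : (⌈ρ⌉₊ : ℝ) < ρ + 1 := Nat.ceil_lt_add_one hρ0.le
  have hceil3 : 1 ≤ ⌈ρ⌉₊ := Nat.ceil_pos.2 hρ0
  clear_value Λ b1 y z1 z J'
  clear_value N τ R0 c2 c1 B a b δ η KJ
  have hL13 : L ^ η ≤ L ^ (1 / 6 : ℝ) := Real.rpow_le_rpow_of_exponent_le hL1 hη6
  have hyL : (y : ℝ) ≤ L ^ (1 / 6 : ℝ) := hyle.trans hL13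
  -- comparison of the exponents
  have hcL : c1 * L / ℓ ≤ c1 * L / ρ := div_le_div_of_nonneg_left (by positivity) hρ0 hρℓ
  have hexpρ : Real.exp (c1 * L / ℓ) ≤ Real.exp (c1 * L / ρ) := Real.exp_le_exp.2 hcL
  -- sizes
  have hLlam : L ≤ lam * L := le_mul_of_one_le_left hL0.le hlam1
  have hLT : L ≤ T := hLlam.trans hT1
  have hT0 : (0 : ℝ) < T := by linarith
  have hT2' : (T : ℝ) ≤ 2 * L ^ (1 + δ) := by
    refine hT2.trans ?_
    rw [Real.rpow_add hL0, Real.rpow_one]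
    have := mul_le_mul_of_nonneg_right hlamup hL0.le
    linarith
  have hTL2 : (T : ℝ) ≤ L ^ 2 := by
    calc (T : ℝ) ≤ 2 * L ^ (1 + δ) := hT2'
      _ ≤ L ^ (11 / 12 : ℝ) * L ^ (13 / 12 : ℝ) := by
          apply mul_le_mul f17 _ (by positivity) (by positivity)
          exact Real.rpow_le_rpow_of_exponent_le hL1 (by linarith)
      _ = L ^ 2 := by
          rw [← Real.rpow_add hL0]
          norm_num
  -- y
  have g1 : 4 * k + 10 ≤ y := by
    have h1 : ((4 * k + 10 : ℕ) : ℝ) < y := by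
      push_cast
      linarith
    exact_mod_cast h1.le
  have hy1 : 1 ≤ y := by omega
  have hyr : (1 : ℝ) ≤ y := by exact_mod_cast hy1
  have hyLL : (y : ℝ) ≤ L := by
    calc (y : ℝ) ≤ L ^ (1 / 6 : ℝ) := hyL
      _ ≤ L ^ (1 : ℝ) := Real.rpow_le_rpow_of_exponent_le hL1 (by norm_num)
      _ = L := Real.rpow_one L
  have g2 : y ≤ T := by
    have h1 : (y : ℝ) ≤ T := hyLL.trans hLT
    exact_mod_cast h1
  -- z1
  have g3 : T ≤ z1 := by
    have h1 : (T : ℝ) < z1 + 1 := by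
      have : L ^ 2 ≤ 6 * L ^ 2 := by
        have := sq_nonneg L
        linarith
      linarith
    exact_mod_cast Nat.lt_add_one_iff.1 (by exact_mod_cast h1)
  have hc1l : 2 * c1 / cl ≤ ρ := by
    have : 0 < c1 / c2 := by positivity
    linarith
  have g4 : ∀ p, p.Prime → y < p → p ≤ z → ¬ p ∣ q := by
    intro p hp h1 h2
    apply hq p hp _ h2
    have h3 : (y : ℝ) + 1 ≤ p := by exact_mod_cast h1
    linarith
  have g5 : ∀ m, |(Rg y m T : ℝ) - T * Vz y| ≤ 1 / 2 * (T * Vz y) :=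
    bf_small T y K1 x0 L η hsm hL1 hηK (by
      have h2 : (x0 : ℝ) < y := by linarith
      exact_mod_cast h2.le) hy1 hyle hyL hLT f15
  have hz12 : 2 ≤ z1 := by omega
  have hz1r : (1 : ℝ) < z1 := by exact_mod_cast hz12
  have hz2 : 2 ≤ z := by omega
  have hzr : (1 : ℝ) < z := by exact_mod_cast hz2
  have hlogz1 : Real.log z1 ≤ c1 * L / ρ := by
    rw [← Real.log_exp (c1 * L / ρ)]
    exact Real.log_le_log (by linarith) hz1le
  have hlogz10 : 0 < Real.log z1 := Real.log_pos hz1r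
  have hlogz0 : 0 < Real.log z := Real.log_pos hzr
  have hlogz : Real.log z ≤ c2 * L := by
    rw [← Real.log_exp (c2 * L)]
    exact Real.log_le_log (by linarith) hzle
  have hlogz12 : c1 * L / (2 * ρ) ≤ Real.log z1 := by
    have h1 := hz1log (by
      have h4 : c1 / 2 * L / ℓ = c1 * L / ℓ / 2 := by ring
      rw [pow_one, h4] at f5
      have h5 : Real.exp (c1 * L / ℓ / 2) ≤ Real.exp (c1 * L / ρ / 2) := Real.exp_le_exp.2 (by linarith)
      linarith)
    calc c1 * L / (2 * ρ) = c1 * L / ρ / 2 := by field_simp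
      _ ≤ _ := h1
  have hT2n : 2 ≤ T := by omega
  have hTr : (1 : ℝ) < T := by exact_mod_cast hT2n
  have hlogT : Real.log T ≤ 2 * ℓ := by
    have h2 := Real.log_le_log hT0 hTL2
    rwa [Real.log_pow] at h2
  have hlogT0 : 0 < Real.log T := Real.log_pos hTr
  have hVz1 : Vz z1 ≤ Cu / (c1 * L / (2 * ρ)) :=
    (hVu z1 hz12).trans (div_le_div_of_nonneg_left hCu.le (by positivity) hlogz12)
  have hVz1' : Vz z1 ≤ Cu / (c1 * L / (2 * ℓ)) := by
    refine hVz1.trans (div_le_div_of_nonneg_left hCu.le (by positivity) ?_)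
    exact div_le_div_of_nonneg_left (by positivity) (by positivity) (by linarith)
  have hVz1l : cl / (c1 * L / ρ) ≤ Vz z1 := (div_le_div_of_nonneg_left hcl.le hlogz10 hlogz1).trans (hVl z1 hz12)
  have hVzl : cl / (c2 * L) ≤ Vz z := (div_le_div_of_nonneg_left hcl.le hlogz0 hlogz).trans (hVl z hz2)
  have g6 : 16 * T * Vz z1 * Vz y ≤ (Vz T) ^ 2 * y :=
    bf_g6 T y z1 L ℓ δ η c1 cl Cu hL1 hℓ0 hc10 hcl hCu hT2' hVz1'
      ((div_le_div_of_nonneg_left hcl.le hlogT0 hlogT).trans (hVl T hT2n)) (by linarith) hδη f3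
  have g7' : lam ≤ 1 / 2 * (T * Vz z1) := by
    have h1 : 2 ≤ cl * ρ / c1 := by
      rw [div_le_iff₀ hcl] at hc1l
      rw [le_div_iff₀ hc10]
      linarith
    calc lam = 1 / 2 * (lam * 2) := by ring
      _ ≤ 1 / 2 * (lam * (cl * ρ / c1)) := by gcongr
      _ = 1 / 2 * (lam * L * (cl / (c1 * L / ρ))) := by field_simp
      _ ≤ 1 / 2 * (T * Vz z1) := by gcongr
  have g7 : (k : ℝ) ≤ 1 / 2 * (T * Vz z1) := by linarith
  have hVz0 := Vz_pos z
  have hVz10 := Vz_pos z1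
  have hVy0 := Vz_pos y
  have hinvW : 1 / Wp (Pyz z1 z) ≤ R0 * ρ := by
    rw [Wp_Pyz' z1 z g3', one_div_div, div_le_iff₀ hVz0]
    calc Vz z1 ≤ Cu / (c1 * L / (2 * ρ)) := hVz1
      _ = R0 * ρ * (cl / (c2 * L)) := by
          rw [hR0]
          field_simp
      _ ≤ R0 * ρ * Vz z := mul_le_mul_of_nonneg_left hVzl (by positivity)
  have hWp20 : 0 < Wp (Pyz z1 z) := by
    rw [Wp_Pyz' z1 z g3']
    positivity
  have hJ1 : (JJ z1 : ℝ) ≤ 4 * ℓ := J_bound z1 L hz12 hLe (by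
    refine hlogz1.trans ?_
    rw [div_le_iff₀ hρ0]
    calc c1 * L ≤ 1 * L := mul_le_mul_of_nonneg_right hc11 hL0.le
      _ = L * 1 := by ring
      _ ≤ L * ρ := mul_le_mul_of_nonneg_left hρ1 hL0.le)
  have hΛ1 : 1 ≤ Λ := by
    rw [hΛ]
    exact Real.one_le_rpow hlam1 hτ0.le
  have hb1le : (b1 : ℝ) ≤ 2 * B * ρ := by
    rw [hb1]
    push_cast
    have h1 : (⌈ρ⌉₊ : ℝ) ≤ 2 * ρ := by linarith
    calc (B : ℝ) * ⌈ρ⌉₊ ≤ B * (2 * ρ) := mul_le_mul_of_nonneg_left h1 (Nat.cast_nonneg _)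
      _ = 2 * B * ρ := by ring
  have hE : ((JJ z1 : ℝ) + 2) * (((2 : ℝ) ^ 2 ^ JJ z1) ^ (10 * b1)) ^ 2 ≤ Real.exp (L / 16) := by
    have h1 : (((2 : ℝ) ^ 2 ^ JJ z1) ^ (10 * b1)) ^ 2 ≤ Real.exp (L / 25) := by
      rw [← pow_mul]
      apply pow_JJ' z1 (10 * b1 * 2) hz12 (c1 * L / ρ) _ hz1le
      push_cast
      calc 2 * (10 * (b1 : ℝ) * 2) * (c1 * L / ρ) ≤ 2 * (10 * (2 * B * ρ) * 2) * (c1 * L / ρ) := by gcongr
        _ = L / 25 := by
            rw [hc1]
            field_simp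
            ring
    have h2 : (JJ z1 : ℝ) + 2 ≤ Real.exp (L / 50) := by
      have h3 : ℓ ≤ L := by
        have := Real.log_le_sub_one_of_pos hL0
        linarith
      rw [pow_one] at f21
      have h4 : (1 / 50 : ℝ) * L = L / 50 := by ring
      rw [h4] at f21
      linarith
    calc ((JJ z1 : ℝ) + 2) * (((2 : ℝ) ^ 2 ^ JJ z1) ^ (10 * b1)) ^ 2 ≤ Real.exp (L / 50) * Real.exp (L / 25) := by
          gcongr
      _ = Real.exp (L / 50 + L / 25) := (Real.exp_add _ _).symm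
      _ ≤ Real.exp (L / 16) := Real.exp_le_exp.2 (by linarith)
  have hD : (((2 : ℝ) ^ 2 ^ JJ z) ^ (10 * b)) ^ (2 * k) ≤ Real.exp (L / 16) := by
    rw [← pow_mul]
    apply pow_JJ' z (10 * b * (2 * k)) hz2 (c2 * L) _ hzle
    push_cast
    rw [hc2]
    apply le_of_eq
    field_simp
    ring
  -- the groups
  have hgr : ∀ i : Fin (JJ z), (grp (JJ z) (Pyz z1 z) i).Nonempty → JJ z ≤ J' + (i : ℕ) := by
    apply groups z1 z J' hz2 _ (by omega)
    have h1 := (natlog_bounds z hz2).1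
    have h2 := (natlog_bounds z1 hz12).2
    have hl2 := log_two_bounds
    have hn1 : (1 : ℝ) ≤ Nat.log 2 z1 := by
      have : 1 ≤ Nat.log 2 z1 := Nat.log_pos (by norm_num) hz12
      exact_mod_cast this
    have h3 : (Nat.log 2 z : ℝ) * Real.log 2 ≤ c2 * L := h1.trans hlogz
    have h4 : c1 * L / (2 * ρ) ≤ 2 * (Nat.log 2 z1 : ℝ) * Real.log 2 := by
      refine hlogz12.trans (h2.trans ?_)
      apply mul_le_mul_of_nonneg_right _ (by linarith)
      linarith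
    have h5 : (4 : ℝ) * Nat.log 2 z ≤ J' * Nat.log 2 z1 := by
      have h6 : (4 * (Nat.log 2 z : ℝ)) * Real.log 2 ≤ (J' * (Nat.log 2 z1 : ℝ)) * Real.log 2 := by
        calc (4 * (Nat.log 2 z : ℝ)) * Real.log 2 ≤ 4 * (c2 * L) := by linarith
          _ = (16 * (c2 / c1) * ρ) * (c1 * L / (2 * ρ)) / 2 := by
              field_simp
              ring
          _ ≤ (J' : ℝ) * (2 * (Nat.log 2 z1 : ℝ) * Real.log 2) / 2 := by gcongr
          _ = _ := by ring
      exact le_of_mul_le_mul_right h6 (by linarith)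
    have h6 : 4 * Nat.log 2 z ≤ J' * Nat.log 2 z1 := by exact_mod_cast h5
    exact h6.trans (Nat.mul_le_mul_right _ (Nat.lt_two_pow_self (n := J')).le)
  have hBD : ∀ m, BC k (X / Qy y) b1 (JJ z1) b (JJ z) J' (Sy y m T) (Pyz y z1) (Pyz z1 z) z1 ≤
      X / Qy y * (6 / lam ^ (A + 2)) + Real.exp (L / 2) := by
    intro m
    have hSm : |((Sy y m T).card : ℝ) - T * Vz y| ≤ 1 / 2 * (T * Vz y) := g5 m
    have ha' := abs_le.1 hSm
    have hμ' : lam ≤ (Sy y m T).card * Wp (Pyz y z1) := by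
      refine g7'.trans ?_
      rw [Wp_Pyz' y z1 (g2.trans g3), mul_div_assoc', le_div_iff₀ hVy0]
      have h1 : 1 / 2 * (T * Vz y) ≤ (Sy y m T).card := by linarith
      calc 1 / 2 * (T * Vz z1) * Vz y = (1 / 2 * (T * Vz y)) * Vz z1 := by ring
        _ ≤ (Sy y m T).card * Vz z1 := mul_le_mul_of_nonneg_right h1 hVz10.le
    have h := finT k (X / Qy y) b1 (JJ z1) b (JJ z) J' A (Sy y m T) (Pyz y z1) (Pyz z1 z) z1 L lam Λ hk1 hL1
      hlam1 hlamL hΛ1 (by
        rw [hΛ, ← Real.rpow_natCast, ← Real.rpow_mul hlampos.le]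
        have : τ * ((8 * k + 8 : ℕ) : ℝ) = 1 := by
          rw [hτ]
          push_cast
          field_simp
        rw [this, Real.rpow_one]) (by
        have : 0 < 16 * Real.exp 7 := by positivity
        linarith) (by
        have : 0 < 16 * Real.exp 5 * k := by positivity
        linarith) (by
        rw [pow_one] at m4
        refine le_trans ?_ m4
        have h1 : 1 ≤ KJ * ρ := by
          have h2 : 1 ≤ KJ := by
            rw [hKJ]
            have : 0 < 16 * (c2 / c1) := by positivity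
            linarith
          calc (1 : ℝ) = 1 * 1 := by ring
            _ ≤ KJ * ρ := mul_le_mul h2 hρ1 (by norm_num) hKJ0.le
        linarith) (by
        refine le_trans ?_ m5
        push_cast
        have h1 : (2 * (b : ℝ) + 2 * J' + 1) ≤ (2 * b + 2 * KJ + 1) * ρ := by
          have h3 : 2 * (b : ℝ) ≤ 2 * b * ρ := le_mul_of_one_le_right (by positivity) hρ1
          linarith
        have h2 : (J' : ℝ) * (2 * b + 2 * J' + 1) ≤ (KJ * ρ) * ((2 * b + 2 * KJ + 1) * ρ) :=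
          mul_le_mul hJ'3 h1 (by positivity) (by positivity)
        calc 2 * (k : ℝ) * (J' * (2 * b + 2 * J' + 1)) ≤ 2 * k * ((KJ * ρ) * ((2 * b + 2 * KJ + 1) * ρ)) := by gcongr
          _ = _ := by ring) (by
        have h1 := W_le (Pyz z1 z) (fun p hp => (mem_Pyz.1 hp).2.2) N
        have h2 : ((N : ℕ) : ℝ) = 2 ^ (2 * k) := by
          rw [hN]
          push_cast
          rfl
        rw [h2] at h1
        refine h1.trans ?_
        refine (pow_le_pow_left₀ (by positivity) hinvW N).trans ?_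
        rw [mul_pow]
        exact m6) (by
        rw [one_div_le (by linarith) hWp20]
        refine hinvW.trans ?_
        rw [pow_one] at m7
        exact m7) hWp20 (by
        rw [Wp_Pyz' y z1 (g2.trans g3)]
        positivity) (by
        apply Wp_le_one
        intro p hp
        exact (mem_Pyz.1 hp).2.2.two_le) (by linarith) (by
        rw [← hk]
        exact pow_le_pow_left₀ hlampos.le hμ' k) (by
        rw [hb1, pow_mul, one_div (lam ^ _)]
        calc ((1 / 2 : ℝ) ^ B) ^ ⌈ρ⌉₊ ≤ (Real.exp (-((A + 3 : ℕ) : ℝ))) ^ ⌈ρ⌉₊ := pow_le_pow_left₀ (by positivity) hBB _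
          _ = Real.exp (⌈ρ⌉₊ * (-((A + 3 : ℕ) : ℝ))) := by rw [← Real.exp_nat_mul]
          _ ≤ Real.exp (-(((A + 3 : ℕ) : ℝ) * ρ)) := by
              apply Real.exp_le_exp.2
              have : ((A + 3 : ℕ) : ℝ) * ρ ≤ ((A + 3 : ℕ) : ℝ) * ⌈ρ⌉₊ := mul_le_mul_of_nonneg_left hceil1 (Nat.cast_nonneg _)
              linarith
          _ = (lam ^ (A + 3))⁻¹ := by
              rw [Real.exp_neg, Real.exp_nat_mul, hρ, Real.exp_log hlampos]) (by
        apply one_div_le_one_div_of_le (by positivity)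
        have h1 : (1 : ℝ) ≤ L ^ a := one_le_pow₀ hL1
        have h2 : L ^ a = L ^ (4 * k + A + 3) := by rw [ha]
        linarith) (by linarith) (by
        refine le_trans ?_ hTL2
        have h1 : (Sy y m T).card ≤ T := by
          calc (Sy y m T).card ≤ (Icc 1 T).card := card_filter_le _ _
            _ = T := by rw [Nat.card_Icc]; omega
        exact_mod_cast h1) hE hD (by
        have h1 : (4 * L ^ 2) ^ (2 * k) * (4 * L) = 4 ^ (2 * k + 1) * L ^ (4 * k + 1) := by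
          rw [mul_pow, ← pow_mul]
          ring
        rw [h1]
        have h2 : (1 / 16 : ℝ) * L = L / 16 := by ring
        rw [h2] at f14
        exact f14)
    refine h.trans ?_
    apply add_le_add _ le_rfl
    apply mul_le_mul_of_nonneg_right _ (by positivity)
    exact Nat.cast_div_le
  have key := discT C0 C1 (by
      intro b1 Jd y q r T k X b J J' P1 P2 S z1 h1 h2 h3 h4 h5 h6 h7 h8 h9 h10 h11 h12 h13
      unfold BC
      exact htwo b1 Jd y q r T k X b J J' P1 P2 S z1 h1 h2 h3 h4 h5 h6 h7 h8 h9 h10 h11 h12 h13) q r T y z z1 k b1 b X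
      J' _ hgr hk1 (by
      rw [hb1]
      calc C0 * (2 * k) ≤ B := hBC
        _ ≤ B * ⌈ρ⌉₊ := Nat.le_mul_of_pos_right _ hceil3) (by
      rw [hb1]
      exact hB2.trans (Nat.le_mul_of_pos_right _ hceil3)) hbC hb2 g1 g2 g3 g3' g4 g5 g6 g7 hBD
  refine key.trans ?_
  exact bt_final X y A L lam f19 m8 hlamL hX hy1 hyL f16 f20

end Pool.Agent.H36.BT
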