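import Mathlib
import Pool.Agent.H36.BT.EvT
import Pool.Agent.H36.BF.All

/-!
Rough numbers in windows: all lengths at least `lam L` at the same time, with an exceptional set
decaying faster than any given power of `lam`.
-/

set_option autoImplicit false

open Finset Filter

namespace Pool.Agent.H36.BT

open Pool.Agent.H36.RW Pool.Agent.H36.BF Pool.Agent.H373R2.T7

/-- sum over the scales -/
lemma scale_sum (J A' : ℕ) (hA' : 1 ≤ A') (lam X : ℝ) (hlam : 0 < lam) (hX : 0 ≤ X) :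
    ∑ j ∈ range (J + 1), X / (2 ^ j * lam) ^ A' ≤ 2 * (X / lam ^ A') := by
  have h1 : ∀ j ∈ range (J + 1), X / (2 ^ j * lam) ^ A' ≤ (1 / 2 : ℝ) ^ j * (X / lam ^ A') := by
    intro j _
    rw [mul_pow, ← div_div, div_right_comm, div_eq_mul_one_div, mul_comm]
    apply mul_le_mul_of_nonneg_right _ (by positivity)
    rw [one_div, one_div, inv_pow]
    apply inv_anti₀ (by positivity)
    calc (2 : ℝ) ^ j = (2 ^ j) ^ 1 := (pow_one _).symm
      _ ≤ (2 ^ j) ^ A' := pow_le_pow_right₀ (one_le_pow₀ (by norm_num)) hA'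
  refine (sum_le_sum h1).trans ?_
  rw [← sum_mul]
  apply mul_le_mul_of_nonneg_right _ (by positivity)
  have h2 := sum_geometric_two_le (J + 1)
  simpa using h2

open Classical in
theorem bt_scales : ∃ δ0 : ℝ, 0 < δ0 ∧ δ0 ≤ 1 ∧ ∀ A' : ℕ, 1 ≤ A' → ∃ c lam0 : ℝ, 0 < c ∧ c ≤ 1 / 2 ∧ 1 ≤ lam0 ∧
    ∀ A : ℕ, ∀ᶠ L : ℝ in atTop, ∀ X : ℕ, Real.exp L ≤ X → ∀ lam : ℝ, lam0 ≤ lam → lam ≤ L ^ δ0 →
    ∀ q r : ℕ, (∀ p : ℕ, p.Prime → Real.log L < p → p ≤ zE c L → ¬ p ∣ q) →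
    (((Icc 1 X).filter (fun l => ∃ T : ℕ, lam * L ≤ T ∧ (T : ℝ) ≤ L ^ A ∧
      ¬ Ok (1 / 64) 32 (Rg (zE c L) (q * l + r) T) (T * Vz (zE c L)))).card : ℝ) ≤
      2 * (X / lam ^ A') + (L ^ A + 1) * (X / (L ^ δ0 / 2) ^ A') := by
  obtain ⟨δ1, hδ1, hev⟩ := bt_ev
  set δ0 := min δ1 1 with hδ0
  have hδ00 : 0 < δ0 := lt_min hδ1 one_pos
  refine ⟨δ0, hδ00, min_le_right _ _, fun A' hA' => ?_⟩
  obtain ⟨c, lam0, hc, hc2, hlam0, h⟩ := hev A'
  refine ⟨c, lam0, hc, hc2, hlam0, fun A => ?_⟩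
  filter_upwards [h, eventually_ge_atTop (2 : ℝ)] with L h hL2
  intro X hX lam hlam1 hlam2 q r hq
  have hL1 : 1 ≤ L := by linarith
  have hL0 : 0 < L := by linarith
  have hlampos : 0 < lam := by linarith
  have hlam1' : 1 ≤ lam := by linarith
  have hLδ : L ^ δ0 ≤ L ^ δ1 := Real.rpow_le_rpow_of_exponent_le hL1 (min_le_left _ _)
  set M : ℝ := L ^ δ0 with hM
  have hM0 : 0 < M := by positivity
  have hX0 : (0 : ℝ) < X := (Real.exp_pos L).trans_le hX
  set J : ℕ := Nat.log 2 ⌊M / lam⌋₊ with hJ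
  have hMl : 1 ≤ M / lam := by
    rw [le_div_iff₀ hlampos]
    linarith
  have hfl : ⌊M / lam⌋₊ ≠ 0 := by
    have : 1 ≤ ⌊M / lam⌋₊ := by
      rw [Nat.one_le_floor_iff]
      exact hMl
    omega
  have hJ1 : (2 : ℝ) ^ J * lam ≤ M := by
    have h1 : 2 ^ J ≤ ⌊M / lam⌋₊ := Nat.pow_log_le_self 2 hfl
    have h2 : (2 : ℝ) ^ J ≤ M / lam := by
      have h3 : ((2 ^ J : ℕ) : ℝ) ≤ (⌊M / lam⌋₊ : ℝ) := by exact_mod_cast h1
      push_cast at h3
      exact h3.trans (Nat.floor_le (by positivity))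
    rwa [le_div_iff₀ hlampos] at h2
  have hJ2 : M / 2 ≤ 2 ^ J * lam := by
    have h1 : ⌊M / lam⌋₊ < 2 ^ (J + 1) := Nat.lt_pow_succ_log_self (by norm_num) _
    have h2 : M / lam < 2 ^ (J + 1) := by
      have h3 : M / lam < (⌊M / lam⌋₊ : ℝ) + 1 := Nat.lt_floor_add_one _
      have h4 : ((⌊M / lam⌋₊ + 1 : ℕ) : ℝ) ≤ ((2 ^ (J + 1) : ℕ) : ℝ) := by exact_mod_cast h1
      push_cast at h4
      linarith
    rw [div_lt_iff₀ hlampos, pow_succ] at h2
    linarith
  have hscale : ∀ j : ℕ, j ≤ J → (2 : ℝ) ^ j * lam ≤ M := by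
    intro j hj
    have h1 : (2 : ℝ) ^ j ≤ 2 ^ J := pow_le_pow_right₀ (by norm_num) hj
    have h2 := mul_le_mul_of_nonneg_right h1 hlampos.le
    linarith
  have hsc1 : ∀ j : ℕ, lam ≤ 2 ^ j * lam := fun j => le_mul_of_one_le_left hlampos.le (one_le_pow₀ (by norm_num))
  set Tj : ℕ → ℕ := fun j => ⌈(2 : ℝ) ^ j * lam * L⌉₊ with hTj
  have hTj1 : ∀ j, (2 : ℝ) ^ j * lam * L ≤ Tj j := fun j => Nat.le_ceil _
  have hlamL : ∀ j : ℕ, 1 ≤ (2 : ℝ) ^ j * lam * L := by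
    intro j
    calc (1 : ℝ) = 1 * 1 := by ring
      _ ≤ (2 ^ j * lam) * L := mul_le_mul (hlam1'.trans (hsc1 j)) hL1 (by norm_num) (by positivity)
  have hTj2 : ∀ j, (Tj j : ℝ) ≤ 2 * ((2 : ℝ) ^ j * lam * L) := by
    intro j
    have h1 : (Tj j : ℝ) < (2 : ℝ) ^ j * lam * L + 1 := Nat.ceil_lt_add_one (by positivity)
    have := hlamL j
    linarith
  set V := Vz (zE c L) with hV
  have hV0 : 0 < V := Vz_pos _
  set K : ℕ := ⌊L ^ A⌋₊ with hK
  have hKle : (K : ℝ) ≤ L ^ A := Nat.floor_le (by positivity)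
  -- one window
  have hone : ∀ j : ℕ, j ≤ J → ∀ r' : ℕ, (((Icc 1 X).filter (fun l => ¬ Ok (1 / 16) 8 (Rg (zE c L) (q * l + r') (Tj j))
      ((Tj j) * V))).card : ℝ) ≤ X / (2 ^ j * lam) ^ A' := fun j hj r' =>
    h X hX (2 ^ j * lam) (hlam1.trans (hsc1 j)) ((hscale j hj).trans hLδ) (Tj j) (hTj1 j) (hTj2 j) q r' hq
  -- the inclusion
  have hsub : ((Icc 1 X).filter (fun l => ∃ T : ℕ, lam * L ≤ T ∧ (T : ℝ) ≤ L ^ A ∧
      ¬ Ok (1 / 64) 32 (Rg (zE c L) (q * l + r) T) (T * V))) ⊆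
      (range (J + 1)).biUnion (fun j => (Icc 1 X).filter (fun l => ¬ Ok (1 / 16) 8
        (Rg (zE c L) (q * l + r) (Tj j)) ((Tj j) * V))) ∪
      (range (K + 1)).biUnion (fun i => (Icc 1 X).filter (fun l => ¬ Ok (1 / 16) 8
        (Rg (zE c L) (q * l + (r + i * Tj J)) (Tj J)) ((Tj J) * V))) := by
    intro l hl
    rw [mem_filter] at hl
    obtain ⟨hl1, T, hT1, hT2, hbad⟩ := hl
    by_contra hno
    rw [mem_union] at hno
    push Not at hno
    obtain ⟨hno1, hno2⟩ := hno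
    have hgood1 : ∀ j ≤ J, Ok (1 / 16) 8 (Rg (zE c L) (q * l + r) (Tj j)) ((Tj j) * V) := by
      intro j hj
      by_contra h3
      apply hno1
      rw [mem_biUnion]
      exact ⟨j, mem_range.2 (by omega), mem_filter.2 ⟨hl1, h3⟩⟩
    have hgood : ∀ i < K + 1, Ok (1 / 16) 8 (Rg (zE c L) (q * l + r + i * Tj J) (Tj J)) ((Tj J) * V) := by
      intro i hi
      by_contra h3
      apply hno2
      rw [mem_biUnion]
      refine ⟨i, mem_range.2 hi, mem_filter.2 ⟨hl1, ?_⟩⟩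
      rw [← add_assoc]
      exact h3
    apply hbad
    have hTK : T ≤ K := by
      rw [hK]
      exact Nat.le_floor hT2
    rcases lt_or_ge T (Tj J) with hTJ | hTJ
    · -- between two scales
      have hex : ∃ j, T < Tj j := ⟨J, hTJ⟩
      have h1 := Nat.find_spec hex
      have h2 : Nat.find hex ≤ J := Nat.find_min' hex hTJ
      have h0 : Nat.find hex ≠ 0 := by
        intro h0
        rw [h0] at h1
        have h3 : Tj 0 ≤ T := by
          rw [hTj]
          simp only [pow_zero, one_mul]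
          exact Nat.ceil_le.2 hT1
        omega
      obtain ⟨j, hj⟩ := Nat.exists_eq_succ_of_ne_zero h0
      have h3 : ¬ T < Tj j := Nat.find_min hex (by omega)
      rw [hj] at h1
      have hjJ : j + 1 ≤ J := by omega
      have h4 : Tj j ≤ T := by omega
      have h5 : T ≤ Tj (j + 1) := h1.le
      have h6 : (Tj (j + 1) : ℝ) ≤ 4 * Tj j := by
        have h7 := hTj2 (j + 1)
        have h8 := hTj1 j
        rw [pow_succ] at h7
        linarith
      obtain ⟨g1, _⟩ := hgood1 j (by omega)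
      obtain ⟨_, g2⟩ := hgood1 (j + 1) hjJ
      have g3 : (Rg (zE c L) (q * l + r) (Tj j) : ℝ) ≤ Rg (zE c L) (q * l + r) T := by
        exact_mod_cast Rg_mono _ _ _ _ h4
      have g4 : (Rg (zE c L) (q * l + r) T : ℝ) ≤ Rg (zE c L) (q * l + r) (Tj (j + 1)) := by
        exact_mod_cast Rg_mono _ _ _ _ h5
      have h4r : (Tj j : ℝ) ≤ T := by exact_mod_cast h4
      have h5r : (T : ℝ) ≤ Tj (j + 1) := by exact_mod_cast h5
      constructor
      · have e4 : (T : ℝ) * V ≤ (4 * Tj j) * V := mul_le_mul_of_nonneg_right (by linarith) hV0.le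
        linarith
      · have e4 : (Tj (j + 1) : ℝ) * V ≤ (4 * T) * V := mul_le_mul_of_nonneg_right (by linarith) hV0.le
        linarith
    · -- blocks of the last scale
      have hT0r : (1 : ℝ) ≤ Tj J := (hlamL J).trans (hTj1 J)
      have hT0n : 0 < Tj J := by exact_mod_cast (by linarith : (0 : ℝ) < Tj J)
      set T0 := Tj J with hT0
      set n := T / T0 with hn
      have hn1 : 1 ≤ n := (Nat.one_le_div_iff hT0n).2 hTJ
      have hnT : n * T0 ≤ T := Nat.div_mul_le_self _ _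
      have hnT' : T < (n + 1) * T0 := by
        rw [add_mul, one_mul, mul_comm]
        exact Nat.lt_mul_div_succ T hT0n |>.trans_eq (by ring)
      have hnJ : n + 1 ≤ K + 1 := by
        have : n ≤ T := Nat.div_le_self _ _
        omega
      have h1 := Ok_blocks (zE c L) (q * l + r) T0 V (1 / 16) 8 n (fun j hj => hgood j (by omega))
      have h2 := Ok_blocks (zE c L) (q * l + r) T0 V (1 / 16) 8 (n + 1) (fun j hj => hgood j (by omega))
      have h3 : (Rg (zE c L) (q * l + r) (n * T0) : ℝ) ≤ Rg (zE c L) (q * l + r) T := by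
        exact_mod_cast Rg_mono _ _ _ _ hnT
      have h4 : (Rg (zE c L) (q * l + r) T : ℝ) ≤ Rg (zE c L) (q * l + r) ((n + 1) * T0) := by
        exact_mod_cast Rg_mono _ _ _ _ hnT'.le
      have ha := h1.1
      have hb := h2.2
      push_cast at hb
      have hn1r : (1 : ℝ) ≤ n := by exact_mod_cast hn1
      have e1 : (n : ℝ) * T0 ≤ T := by exact_mod_cast hnT
      have e2 : (T : ℝ) < (n + 1) * T0 := by exact_mod_cast hnT'
      have hT00 : (0 : ℝ) < T0 := by linarith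
      have e3 : (T0 : ℝ) ≤ n * T0 := le_mul_of_one_le_left hT00.le hn1r
      have hTV : 0 ≤ (T : ℝ) * V := by positivity
      constructor
      · have e4 : (T : ℝ) * V ≤ (2 * (n * T0)) * V := mul_le_mul_of_nonneg_right (by linarith) hV0.le
        linarith
      · have e4 : ((n : ℝ) + 1) * T0 * V ≤ (2 * T) * V := mul_le_mul_of_nonneg_right (by linarith) hV0.le
        linarith
  have hcard : (((Icc 1 X).filter (fun l => ∃ T : ℕ, lam * L ≤ T ∧ (T : ℝ) ≤ L ^ A ∧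
      ¬ Ok (1 / 64) 32 (Rg (zE c L) (q * l + r) T) (T * V))).card : ℝ) ≤
      ∑ j ∈ range (J + 1), (((Icc 1 X).filter (fun l => ¬ Ok (1 / 16) 8
        (Rg (zE c L) (q * l + r) (Tj j)) ((Tj j) * V))).card : ℝ) +
      ∑ i ∈ range (K + 1), (((Icc 1 X).filter (fun l => ¬ Ok (1 / 16) 8
        (Rg (zE c L) (q * l + (r + i * Tj J)) (Tj J)) ((Tj J) * V))).card : ℝ) := by
    have h1 := (card_le_card hsub).trans ((card_union_le _ _).trans (add_le_add card_biUnion_le card_biUnion_le))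
    exact_mod_cast h1
  refine hcard.trans (add_le_add ?_ ?_)
  · refine (sum_le_sum fun j hj => hone j (by have := mem_range.1 hj; omega) r).trans ?_
    exact scale_sum J A' hA' lam X hlampos hX0.le
  · refine (sum_le_sum fun i _ => hone J le_rfl (r + i * Tj J)).trans ?_
    rw [sum_const, card_range, nsmul_eq_mul]
    push_cast
    have h1 : (X : ℝ) / (2 ^ J * lam) ^ A' ≤ X / (M / 2) ^ A' := by
      apply div_le_div_of_nonneg_left hX0.le (by positivity)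
      exact pow_le_pow_left₀ (by positivity) hJ2 _
    exact mul_le_mul (by linarith) h1 (by positivity) (by positivity)

open Classical in
theorem bt_all (A : ℕ) : ∃ c C : ℝ, 0 < c ∧ c ≤ 1 / 2 ∧ 0 < C ∧
    ∀ᶠ L : ℝ in atTop, ∀ X : ℕ, Real.exp L ≤ X → ∀ lam : ℝ, 1 ≤ lam →
    ∀ q r : ℕ, (∀ p : ℕ, p.Prime → Real.log L < p → p ≤ zE c L → ¬ p ∣ q) →
    (((Icc 1 X).filter (fun l => ∃ T : ℕ, lam * L ≤ T ∧ (T : ℝ) ≤ L ^ A ∧
      ¬ Ok (1 / 64) 32 (Rg (zE c L) (q * l + r) T) (T * Vz (zE c L)))).card : ℝ) ≤ C * (X / lam ^ A) := by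
  obtain ⟨δ0, hδ0, hδ1, hsc⟩ := bt_scales
  obtain ⟨A1, hA1⟩ := exists_nat_ge ((A ^ 2 + 2 * A + 2 : ℝ) / δ0)
  set A' := max A1 (A + 1) with hA'
  have hA'1 : 1 ≤ A' := by have := le_max_right A1 (A + 1); omega
  have hA'A : A ≤ A' := by have := le_max_right A1 (A + 1); omega
  have hδA : (A ^ 2 + 2 * A + 2 : ℝ) ≤ δ0 * A' := by
    have h1 : (A1 : ℝ) ≤ A' := by exact_mod_cast le_max_left _ _
    rw [div_le_iff₀ hδ0] at hA1
    have := mul_le_mul_of_nonneg_right h1 hδ0.le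
    linarith
  obtain ⟨c, lam0, hc, hc2, hlam0, h⟩ := hsc A' hA'1
  refine ⟨c, 3 + lam0 ^ A, hc, hc2, by positivity, ?_⟩
  filter_upwards [h A, eventually_ge_atTop (2 : ℝ), eventually_ge_atTop ((2 : ℝ) ^ (A' + 1)),
    (tendsto_rpow_atTop hδ0).eventually_ge_atTop lam0] with L h hL2 hL3 hL4
  intro X hX lam hlam1 q r hq
  have hL1 : 1 ≤ L := by linarith
  have hL0 : 0 < L := by linarith
  have hlampos : 0 < lam := by linarith
  have hX0 : (0 : ℝ) < X := (Real.exp_pos L).trans_le hX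
  set M : ℝ := L ^ δ0 with hM
  have hM0 : 0 < M := by positivity
  have hC1 : (1 : ℝ) ≤ 3 + lam0 ^ A := by
    have : 0 < lam0 ^ A := by positivity
    linarith
  -- trivial range
  by_cases hbig : L ^ A < lam * L
  · have h0 : (Icc 1 X).filter (fun l => ∃ T : ℕ, lam * L ≤ T ∧ (T : ℝ) ≤ L ^ A ∧
      ¬ Ok (1 / 64) 32 (Rg (zE c L) (q * l + r) T) (T * Vz (zE c L))) = ∅ := by
      rw [filter_eq_empty_iff]
      rintro l _ ⟨T, h1, h2, _⟩
      linarith
    rw [h0, card_empty, Nat.cast_zero]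
    positivity
  have hlamA : lam ≤ L ^ A := by
    have h1 : lam ≤ lam * L := le_mul_of_one_le_right hlampos.le hL1
    linarith
  by_cases hsm : lam < lam0
  · have h1 : (((Icc 1 X).filter (fun l => ∃ T : ℕ, lam * L ≤ T ∧ (T : ℝ) ≤ L ^ A ∧
      ¬ Ok (1 / 64) 32 (Rg (zE c L) (q * l + r) T) (T * Vz (zE c L)))).card : ℝ) ≤ X := by
      have : ((Icc 1 X).filter (fun l => ∃ T : ℕ, lam * L ≤ T ∧ (T : ℝ) ≤ L ^ A ∧
        ¬ Ok (1 / 64) 32 (Rg (zE c L) (q * l + r) T) (T * Vz (zE c L)))).card ≤ X := by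
        refine (card_filter_le _ _).trans ?_
        rw [Nat.card_Icc]
        omega
      exact_mod_cast this
    refine h1.trans ?_
    rw [mul_div_assoc', le_div_iff₀ (by positivity)]
    have h2 : lam ^ A ≤ lam0 ^ A := pow_le_pow_left₀ hlampos.le hsm.le A
    calc (X : ℝ) * lam ^ A ≤ X * (3 + lam0 ^ A) := mul_le_mul_of_nonneg_left (by linarith) hX0.le
      _ = _ := mul_comm _ _
  push Not at hsm
  -- main range
  set lam' := min lam M with hlam'
  have hl1 : lam0 ≤ lam' := le_min hsm hL4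
  have hl2 : lam' ≤ M := min_le_right _ _
  have hl3 : lam' ≤ lam := min_le_left _ _
  have hl0 : 0 < lam' := by linarith
  have h1 := h X hX lam' hl1 hl2 q r hq
  have hsub : (Icc 1 X).filter (fun l => ∃ T : ℕ, lam * L ≤ T ∧ (T : ℝ) ≤ L ^ A ∧
      ¬ Ok (1 / 64) 32 (Rg (zE c L) (q * l + r) T) (T * Vz (zE c L))) ⊆
      (Icc 1 X).filter (fun l => ∃ T : ℕ, lam' * L ≤ T ∧ (T : ℝ) ≤ L ^ A ∧
      ¬ Ok (1 / 64) 32 (Rg (zE c L) (q * l + r) T) (T * Vz (zE c L))) := by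
    intro l hl
    rw [mem_filter] at hl ⊢
    obtain ⟨h2, T, h3, h4, h5⟩ := hl
    exact ⟨h2, T, (mul_le_mul_of_nonneg_right hl3 hL0.le).trans h3, h4, h5⟩
  have h2 : (((Icc 1 X).filter (fun l => ∃ T : ℕ, lam * L ≤ T ∧ (T : ℝ) ≤ L ^ A ∧
      ¬ Ok (1 / 64) 32 (Rg (zE c L) (q * l + r) T) (T * Vz (zE c L)))).card : ℝ) ≤
      (((Icc 1 X).filter (fun l => ∃ T : ℕ, lam' * L ≤ T ∧ (T : ℝ) ≤ L ^ A ∧
      ¬ Ok (1 / 64) 32 (Rg (zE c L) (q * l + r) T) (T * Vz (zE c L)))).card : ℝ) := by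
    exact_mod_cast card_le_card hsub
  refine h2.trans (h1.trans ?_)
  -- powers of M
  have hMA : L ^ (A ^ 2 + 2 * A + 2) ≤ M ^ A' := by
    calc L ^ (A ^ 2 + 2 * A + 2) = L ^ (A ^ 2 + 2 * A + 2 : ℝ) := by
          rw [← Real.rpow_natCast]
          push_cast
          rfl
      _ ≤ L ^ (δ0 * A') := Real.rpow_le_rpow_of_exponent_le hL1 hδA
      _ = M ^ A' := by rw [hM, Real.rpow_mul hL0.le, Real.rpow_natCast]
  have hlamAA : lam ^ A ≤ L ^ (A ^ 2) := by
    calc lam ^ A ≤ (L ^ A) ^ A := pow_le_pow_left₀ hlampos.le hlamA A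
      _ = L ^ (A ^ 2) := by rw [← pow_mul, sq]
  -- second term
  have hsec : (L ^ A + 1) * (X / (M / 2) ^ A') ≤ X / lam ^ A := by
    rw [mul_div_assoc', div_le_div_iff₀ (by positivity) (by positivity), div_pow]
    rw [mul_div_assoc', le_div_iff₀ (by positivity)]
    have e1 : L ^ A + 1 ≤ 2 * L ^ A := by
      have : 1 ≤ L ^ A := one_le_pow₀ hL1
      linarith
    have e2 : (2 : ℝ) ^ A' * 2 ≤ L := by
      rw [← pow_succ]
      exact hL3
    calc (L ^ A + 1) * X * lam ^ A * 2 ^ A' ≤ (2 * L ^ A) * X * L ^ (A ^ 2) * 2 ^ A' := by gcongr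
      _ = X * (L ^ A * L ^ (A ^ 2) * (2 ^ A' * 2)) := by ring
      _ ≤ X * (L ^ A * L ^ (A ^ 2) * L) := by gcongr
      _ = X * L ^ (A ^ 2 + A + 1) := by
          rw [pow_add, pow_add, pow_one]
          ring
      _ ≤ X * L ^ (A ^ 2 + 2 * A + 2) := by
          apply mul_le_mul_of_nonneg_left _ hX0.le
          exact pow_le_pow_right₀ hL1 (by omega)
      _ ≤ X * M ^ A' := mul_le_mul_of_nonneg_left hMA hX0.le
  -- first term
  have hfirst : X / lam' ^ A' ≤ X / lam ^ A := by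
    apply div_le_div_of_nonneg_left hX0.le (by positivity)
    rcases le_total lam M with h5 | h5
    · have : lam' = lam := min_eq_left h5
      rw [this]
      exact pow_le_pow_right₀ hlam1 hA'A
    · have : lam' = M := min_eq_right h5
      rw [this]
      refine hlamAA.trans (le_trans ?_ hMA)
      exact pow_le_pow_right₀ hL1 (by omega)
  have hpos : 0 ≤ X / lam ^ A := by positivity
  have hlamA0 : 0 ≤ lam0 ^ A := by positivity
  have h6 : (3 + lam0 ^ A) * (X / lam ^ A) = 3 * (X / lam ^ A) + lam0 ^ A * (X / lam ^ A) := by ring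
  rw [h6]
  have h7 : 0 ≤ lam0 ^ A * (X / lam ^ A) := mul_nonneg hlamA0 hpos
  linarith

end Pool.Agent.H36.BT
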